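import Pool.Agent.NPC.Num

/-!
# Automorphisms of the rooted binary tree

The vertices of the tree are the bit strings.
-/

set_option autoImplicit false

namespace Pool.Agent.V7H78.TR2

open Pool.Agent.NPC

/-- `f` is an automorphism of the rooted binary tree: a bijection of the set of bit strings which
preserves the length and the relation of being an initial segment. -/
structure TreeAut (f : List Bool → List Bool) : Prop where
  bij : Function.Bijective f
  len : ∀ x, (f x).length = x.length
  pre : ∀ x y, f x <+: f (x ++ y)

/-- `f` is transitive on every level of the tree. -/
def LevelTransitive (f : List Bool → List Bool) : Prop :=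
  ∀ x y : List Bool, x.length = y.length → ∃ t : ℕ, f^[t] x = y

/-- The odometer (adding machine): it adds one to a number written in binary, the least significant
digit first, modulo the power of two given by the number of digits. -/
def odometer : List Bool → List Bool
  | [] => []
  | false :: x => true :: x
  | true :: x => false :: odometer x

/-- The automorphism with portrait `g`: the `i`-th bit of `x` is changed if `g` is true at the
initial segment of length `i` of `x`. -/
def auto : (List Bool → Bool) → List Bool → List Bool
  | _, [] => []
  | g, b :: x => (b ^^ g []) :: auto (fun u => g (b :: u)) x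

@[simp] theorem auto_nil (g : List Bool → Bool) : auto g [] = [] := rfl

theorem auto_cons (g : List Bool → Bool) (b : Bool) (x : List Bool) :
    auto g (b :: x) = (b ^^ g []) :: auto (fun u => g (b :: u)) x := rfl

@[simp] theorem auto_length (g : List Bool → Bool) (x : List Bool) :
    (auto g x).length = x.length := by
  induction x generalizing g with
  | nil => rfl
  | cons b x ih => simp [auto_cons, ih]

theorem auto_append (g : List Bool → Bool) (x y : List Bool) :
    auto g (x ++ y) = auto g x ++ auto (fun u => g (x ++ u)) y := by
  induction x generalizing g with
  | nil => simp
  | cons b x ih =>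
    rw [List.cons_append, auto_cons, ih, auto_cons]
    rfl

theorem auto_congr {g g' : List Bool → Bool} {x : List Bool}
    (h : ∀ i < x.length, g (x.take i) = g' (x.take i)) : auto g x = auto g' x := by
  induction x generalizing g g' with
  | nil => rfl
  | cons b x ih =>
    rw [auto_cons, auto_cons]
    have h0 := h 0 (by simp)
    simp only [List.take_zero] at h0
    rw [h0]
    congr 1
    apply ih
    intro i hi
    have := h (i + 1) (by simpa using hi)
    simpa using this

theorem auto_false (x : List Bool) : auto (fun _ => false) x = x := by
  induction x with
  | nil => rfl
  | cons b x ih => rw [auto_cons, ih]; simp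

theorem auto_injective (g : List Bool → Bool) : Function.Injective (auto g) := by
  intro x y h
  induction x generalizing g y with
  | nil =>
    have := congrArg List.length h
    simp only [auto_nil, List.length_nil, auto_length] at this
    exact (List.length_eq_zero_iff.1 this.symm).symm
  | cons b x ih =>
    cases y with
    | nil =>
      have := congrArg List.length h
      simp at this
    | cons c y =>
      rw [auto_cons, auto_cons, List.cons.injEq] at h
      have hb : b = c := by simpa using h.1
      subst hb
      rw [ih _ h.2]

theorem auto_surjective (g : List Bool → Bool) : Function.Surjective (auto g) := by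
  intro y
  induction y generalizing g with
  | nil => exact ⟨[], rfl⟩
  | cons c y ih =>
    obtain ⟨x, hx⟩ := ih (fun u => g ((c ^^ g []) :: u))
    refine ⟨(c ^^ g []) :: x, ?_⟩
    rw [auto_cons, hx]
    simp

theorem auto_treeAut (g : List Bool → Bool) : TreeAut (auto g) where
  bij := ⟨auto_injective g, auto_surjective g⟩
  len := auto_length g
  pre x y := by rw [auto_append]; exact List.prefix_append _ _

theorem odometer_eq (x : List Bool) : odometer x = auto (fun u => u.all id) x := by
  induction x with
  | nil => rfl
  | cons b x ih =>
    cases b with
    | false =>
      rw [odometer, auto_cons]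
      simp only [List.all_nil, Bool.false_bne, List.all_cons, id_eq, Bool.false_and]
      rw [auto_false]
    | true =>
      rw [odometer, auto_cons, ih]
      simp

theorem odometer_treeAut : TreeAut odometer := by
  have : odometer = auto (fun u => u.all id) := funext odometer_eq
  rw [this]
  exact auto_treeAut _

@[simp] theorem odometer_length (x : List Bool) : (odometer x).length = x.length :=
  odometer_treeAut.len x

/-! ### Numbers -/

theorem valB_inj {x y : List Bool} (hl : x.length = y.length) (h : valB x = valB y) : x = y := by
  induction x generalizing y with
  | nil => exact (List.length_eq_zero_iff.1 hl.symm).symm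
  | cons b x ih =>
    cases y with
    | nil => simp at hl
    | cons c y =>
      simp only [valB_cons] at h
      have hb : b = c := by
        cases b <;> cases c <;> simp at h ⊢ <;> omega
      subst hb
      rw [ih (by simpa using hl) (by omega)]

theorem valB_modEq_inj {x y : List Bool} (hl : x.length = y.length)
    (h : (valB x : ℤ) ≡ valB y [ZMOD 2 ^ x.length]) : x = y := by
  apply valB_inj hl
  have h1 := valB_lt x
  have h2 := valB_lt y
  rw [← hl] at h2
  have h3 : valB x ≡ valB y [MOD 2 ^ x.length] := by
    rw [← Int.natCast_modEq_iff]
    simpa using h
  exact Nat.ModEq.eq_of_lt_of_lt h3 h1 h2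

theorem valB_odometer (x : List Bool) :
    (valB (odometer x) : ℤ) ≡ valB x + 1 [ZMOD 2 ^ x.length] := by
  induction x with
  | nil => simpa [odometer] using Int.modEq_one
  | cons b x ih =>
    cases b with
    | false =>
      simp only [odometer, valB_cons, if_true, Bool.false_eq_true, if_false]
      push_cast
      have : (1 + 2 * (valB x : ℤ)) = 0 + 2 * valB x + 1 := by ring
      rw [this]
    | true =>
      simp only [odometer, valB_cons, if_true, Bool.false_eq_true, if_false]
      push_cast
      have h2 := Int.ModEq.mul_left' (c := 2) ih
      rw [List.length_cons, pow_succ, mul_comm ((2 : ℤ) ^ x.length) 2]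
      calc (0 + 2 * (valB (odometer x) : ℤ)) = 2 * (valB (odometer x) : ℤ) := by ring
        _ ≡ 2 * (valB x + 1) [ZMOD 2 * 2 ^ x.length] := h2
        _ = 1 + 2 * valB x + 1 := by ring

theorem valB_take_mod (x : List Bool) (n : ℕ) : valB (x.take n) = valB x % 2 ^ n := by
  induction n generalizing x with
  | zero => simp [Nat.mod_one]
  | succ n ih =>
    cases x with
    | nil => simp
    | cons b x =>
      rw [List.take_succ_cons, valB_cons, valB_cons, ih, pow_succ]
      have h1 := Nat.div_add_mod (valB x) (2 ^ n)
      have h2 : (if b = true then 1 else 0) < 2 := by split_ifs <;> omega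
      generalize (if b = true then 1 else 0) = e at *
      have h3 : valB x % 2 ^ n < 2 ^ n := Nat.mod_lt _ (by positivity)
      have h4 : e + 2 * valB x = (e + 2 * (valB x % 2 ^ n)) + (2 ^ n * 2) * (valB x / 2 ^ n) := by
        nlinarith
      have h5 : (e + 2 * valB x) % (2 ^ n * 2) = e + 2 * (valB x % 2 ^ n) := by
        rw [h4, Nat.add_mul_mod_self_left]
        exact Nat.mod_eq_of_lt (by omega)
      rw [h5]

theorem all_iff_valB (x : List Bool) : x.all id = true ↔ valB x + 1 = 2 ^ x.length := by
  induction x with
  | nil => simp
  | cons b x ih =>
    have h1 := valB_lt x
    rw [List.all_cons, Bool.and_eq_true, ih, valB_cons, List.length_cons, pow_succ]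
    cases b <;> simp <;> omega

end Pool.Agent.V7H78.TR2
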