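import Pool.Agent.V7H78.TR2.Aut

/-!
# Iterates of an automorphism on a level of the tree
-/

set_option autoImplicit false

namespace Pool.Agent.V7H78.TR2

open Pool.Agent.NPC Function

variable {f : List Bool → List Bool}

theorem TreeAut.take (hf : TreeAut f) (x : List Bool) (n : ℕ) : (f x).take n = f (x.take n) := by
  have h := hf.pre (x.take n) (x.drop n)
  rw [List.take_append_drop] at h
  obtain ⟨t, ht⟩ := h
  by_cases hn : n ≤ x.length
  · rw [← ht, List.take_append_of_le_length (by rw [hf.len]; simp [hn])]
    rw [List.take_of_length_le]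
    rw [hf.len]; simp
  · have hn' : x.length ≤ n := by omega
    rw [List.take_of_length_le hn', List.take_of_length_le (by rw [hf.len]; omega)]

theorem TreeAut.id' : TreeAut (fun x => x) where
  bij := Function.bijective_id
  len _ := rfl
  pre _ _ := List.prefix_append _ _

theorem TreeAut.pre' (hf : TreeAut f) {x y : List Bool} (h : x <+: y) : f x <+: f y := by
  obtain ⟨t, rfl⟩ := h
  exact hf.pre x t

theorem TreeAut.comp {g : List Bool → List Bool} (hf : TreeAut f) (hg : TreeAut g) :
    TreeAut (fun x => f (g x)) where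
  bij := hf.bij.comp hg.bij
  len x := by rw [hf.len, hg.len]
  pre x y := hf.pre' (hg.pre x y)

theorem TreeAut.iter (hf : TreeAut f) (t : ℕ) : TreeAut f^[t] := by
  induction t with
  | zero => exact TreeAut.id'
  | succ t ih =>
    rw [Function.iterate_succ']
    exact hf.comp ih

theorem TreeAut.inv {g : List Bool → List Bool} (hf : TreeAut f) (h1 : ∀ x, g (f x) = x)
    (h2 : ∀ x, f (g x) = x) : TreeAut g where
  bij := by
    refine ⟨fun x y h => ?_, fun x => ⟨f x, h1 x⟩⟩
    rw [← h2 x, h, h2]
  len x := by
    have := hf.len (g x)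
    rw [h2] at this
    exact this.symm
  pre x y := by
    have h3 := hf.take (g (x ++ y)) x.length
    rw [h2, List.take_left' rfl] at h3
    have h4 : g x = (g (x ++ y)).take x.length := by
      have h5 := congrArg g h3
      rwa [h1] at h5
    rw [h4]
    exact List.take_prefix _ _

/-- the action on a level -/
def lev (hf : TreeAut f) (n : ℕ) : List.Vector Bool n → List.Vector Bool n :=
  fun x => ⟨f x.1, by rw [hf.len]; exact x.2⟩

/-- a string as a point of its level -/
def vec (x : List Bool) : List.Vector Bool x.length := ⟨x, rfl⟩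

@[simp] theorem vec_val (x : List Bool) : (vec x).1 = x := rfl

theorem lev_iter (hf : TreeAut f) (n t : ℕ) (x : List.Vector Bool n) :
    ((lev hf n)^[t] x).1 = f^[t] x.1 := by
  induction t generalizing x with
  | zero => rfl
  | succ t ih => rw [Function.iterate_succ_apply, ih, Function.iterate_succ_apply]; rfl

theorem lev_inj (hf : TreeAut f) (n : ℕ) : Injective (lev hf n) := by
  intro x y h
  have h1 : f x.1 = f y.1 := congrArg Subtype.val h
  exact Subtype.ext (hf.bij.1 h1)

theorem exists_period (hf : TreeAut f) (x : List Bool) : ∃ N > 0, f^[N] x = x := by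
  have h := (lev_inj hf x.length).mem_periodicPts (vec x)
  obtain ⟨N, hN, hp⟩ := mem_periodicPts.1 h
  refine ⟨N, hN, ?_⟩
  have h1 : (lev hf x.length)^[N] (vec x) = vec x := hp
  have h2 := congrArg Subtype.val h1
  rwa [lev_iter] at h2

theorem iter_len (hf : TreeAut f) (t : ℕ) (x : List Bool) : (f^[t] x).length = x.length :=
  (hf.iter t).len x

/-- `f` is transitive on level `n`. -/
def TransAt (f : List Bool → List Bool) (n : ℕ) : Prop :=
  ∀ x y : List Bool, x.length = n → y.length = n → ∃ t : ℕ, f^[t] x = y

theorem LevelTransitive.at (h : LevelTransitive f) (n : ℕ) : TransAt f n :=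
  fun x y hx hy => h x y (hx.trans hy.symm)

theorem TransAt.mono (hf : TreeAut f) {m n : ℕ} (hmn : m ≤ n) (h : TransAt f n) : TransAt f m := by
  intro x y hx hy
  obtain ⟨t, ht⟩ := h (x ++ List.replicate (n - m) false) (y ++ List.replicate (n - m) false)
    (by simp; omega) (by simp; omega)
  refine ⟨t, ?_⟩
  have h1 := (hf.iter t).take (x ++ List.replicate (n - m) false) m
  rw [ht, List.take_left' hy, List.take_left' hx] at h1
  exact h1.symm

/-- If everything is reached from the zero string then the automorphism is transitive. -/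
theorem transAt_of_zero (hf : TreeAut f) {n : ℕ}
    (h : ∀ x : List Bool, x.length = n → ∃ t, f^[t] (List.replicate n false) = x) :
    TransAt f n := by
  intro x y hx hy
  obtain ⟨t, ht⟩ := h x hx
  obtain ⟨s, hs⟩ := h y hy
  rw [← hx] at ht hs
  obtain ⟨N, hN, hp⟩ := exists_period hf (List.replicate x.length false)
  -- `f^[N * t]` fixes zero
  have hp' : ∀ m, f^[N * m] (List.replicate x.length false) = List.replicate x.length false := by
    intro m
    induction m with
    | zero => rfl
    | succ m ih => rw [Nat.mul_succ, Function.iterate_add_apply, hp, ih]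
  refine ⟨s + (N * t - t), ?_⟩
  rw [Function.iterate_add_apply]
  have h1 : f^[N * t - t] x = List.replicate x.length false := by
    conv_lhs => rw [← ht]
    rw [← Function.iterate_add_apply]
    have : N * t - t + t = N * t := Nat.sub_add_cancel (Nat.le_mul_of_pos_left t hN)
    rw [this, hp']
  rw [h1, hs]

theorem trans_of_zero (hf : TreeAut f)
    (h : ∀ x : List Bool, ∃ t, f^[t] (List.replicate x.length false) = x) :
    LevelTransitive f := by
  intro x y hxy
  refine transAt_of_zero hf (n := x.length) ?_ x y rfl hxy.symm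
  intro z hz
  rw [← hz]
  exact h z

section trans

set_option linter.unusedSectionVars false

variable (hf : TreeAut f)
include hf

theorem minPeriod (n : ℕ) (ht : TransAt f n) (x : List.Vector Bool n) : minimalPeriod (lev hf n) x = 2 ^ n := by
  have hx := (lev_inj hf n).mem_periodicPts x
  have hpos := minimalPeriod_pos_of_mem_periodicPts hx
  set N := minimalPeriod (lev hf n) x with hN
  let F : Fin N → List.Vector Bool n := fun i => (lev hf n)^[i.1] x
  have hF : Function.Bijective F := by
    constructor
    · intro i j hij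
      have := Function.iterate_injOn_Iio_minimalPeriod (f := lev hf n) (x := x) i.2 j.2 hij
      exact Fin.ext this
    · intro y
      obtain ⟨t, h⟩ := ht x.1 y.1 x.2 y.2
      refine ⟨⟨t % N, Nat.mod_lt _ hpos⟩, ?_⟩
      have h2 : (lev hf n)^[t % N] x = (lev hf n)^[t] x := iterate_mod_minimalPeriod_eq
      show (lev hf n)^[t % N] x = y
      rw [h2]
      apply Subtype.ext
      rw [lev_iter, h]
  have := Fintype.card_of_bijective hF
  rw [Fintype.card_fin, card_vector, Fintype.card_bool] at this
  exact this

theorem iter_eq_iff (x : List Bool) (ht : TransAt f x.length) (s t : ℕ) :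
    f^[s] x = f^[t] x ↔ s ≡ t [MOD 2 ^ x.length] := by
  have hp := minPeriod hf x.length ht (vec x)
  have h1 : f^[s] x = f^[t] x ↔ (lev hf x.length)^[s] (vec x) = (lev hf x.length)^[t] (vec x) := by
    refine ⟨fun h => Subtype.ext (by rw [lev_iter, lev_iter]; exact h), fun h => ?_⟩
    have h3 := congrArg Subtype.val h
    rwa [lev_iter, lev_iter] at h3
  rw [h1]
  have h2 : ∀ m, (lev hf x.length)^[m % 2 ^ x.length] (vec x) = (lev hf x.length)^[m] (vec x) := by
    intro m
    rw [← hp]
    exact iterate_mod_minimalPeriod_eq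
  constructor
  · intro h
    rw [← h2 s, ← h2 t] at h
    have hpos : 0 < 2 ^ x.length := by positivity
    have := Function.iterate_injOn_Iio_minimalPeriod (f := lev hf x.length) (x := vec x)
      (by rw [Set.mem_Iio, hp]; exact Nat.mod_lt s hpos)
      (by rw [Set.mem_Iio, hp]; exact Nat.mod_lt t hpos) h
    exact this
  · intro h
    rw [← h2 s, ← h2 t, h]

theorem iter_two_pow (x : List Bool) (ht : TransAt f x.length) : f^[2 ^ x.length] x = x := by
  have := (iter_eq_iff hf x ht (2 ^ x.length) 0).2 (by simp [Nat.ModEq])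
  simpa using this

/-- A map that commutes with a level-transitive automorphism is a power of it on every level. -/
theorem commute_power (ht : LevelTransitive f) {g : List Bool → List Bool} (hg : TreeAut g)
    (hc : ∀ x, g (f x) = f (g x)) (n : ℕ) : ∃ k, ∀ x : List Bool, x.length = n → g x = f^[k] x := by
  obtain ⟨k, hk⟩ := ht (List.replicate n false) (g (List.replicate n false)) (by
    rw [hg.len])
  refine ⟨k, fun x hx => ?_⟩
  obtain ⟨t, h⟩ := ht (List.replicate n false) x (by simp [hx])
  have hc' : ∀ t x, g (f^[t] x) = f^[t] (g x) := by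
    intro t
    induction t with
    | zero => intro x; rfl
    | succ t ih => intro x; rw [Function.iterate_succ_apply, ih, hc, Function.iterate_succ_apply]
  rw [← h, hc', ← hk, ← Function.iterate_add_apply, ← Function.iterate_add_apply, add_comm]

/-- A root of a level-transitive automorphism is a known power of it on every level. -/
theorem root_power (ht : LevelTransitive f) {g : List Bool → List Bool} (hg : TreeAut g)
    {m : ℕ} (hm : Odd m) (h3 : ∀ x, g^[m] x = f x) (x : List Bool) (s : ℕ)
    (hs : m * s ≡ 1 [MOD 2 ^ x.length]) : g x = f^[s] x := by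
  have hc : ∀ x, g (f x) = f (g x) := by
    intro x
    rw [← h3, ← h3, ← Function.iterate_succ_apply g, ← Function.iterate_succ_apply' g]
  obtain ⟨k, hk⟩ := commute_power hf ht hg hc x.length
  rw [hk x rfl]
  rw [iter_eq_iff hf x (ht.at _)]
  have h4 : f^[m * k] x = f^[1] x := by
    have key : ∀ j, g^[j] x = f^[j * k] x := by
      intro j
      induction j with
      | zero => simp
      | succ j ih =>
        rw [Function.iterate_succ_apply', ih, hk _ (iter_len hf _ _), ← Function.iterate_add_apply]
        congr 1
        ring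
    rw [← key, h3]
    rfl
  rw [iter_eq_iff hf x (ht.at _)] at h4
  have h5 : m * k ≡ m * s [MOD 2 ^ x.length] := h4.trans hs.symm
  have hcop : Nat.Coprime (2 ^ x.length) m :=
    Nat.Coprime.pow_left _ ((Nat.coprime_two_left).2 hm)
  exact Nat.ModEq.cancel_left_of_coprime hcop h5

end trans

/-! ### The inverse of an odd number modulo a power of two -/

/-- the number `j < m` for which `1 + j * 2 ^ n` is divisible by `m` -/
def jinv (m n : ℕ) : ℕ :=
  ((List.range m).filter (fun j => decide ((1 + j * 2 ^ n) % m = 0))).head?.getD 0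

/-- the inverse of `m` modulo `2 ^ n` -/
def sinv (m n : ℕ) : ℕ := (1 + jinv m n * 2 ^ n) / m

theorem jinv_spec {m : ℕ} (hm : Odd m) (n : ℕ) :
    jinv m n < m ∧ m ∣ 1 + jinv m n * 2 ^ n := by
  have hm0 : 0 < m := hm.pos
  have hcop : Nat.Coprime (2 ^ n) m := Nat.Coprime.pow_left _ ((Nat.coprime_two_left).2 hm)
  -- existence
  obtain ⟨j, hj, hj2⟩ : ∃ j < m, (1 + j * 2 ^ n) % m = 0 := by
    have h1 : ∃ a : ℕ, 2 ^ n * a ≡ 1 [MOD m] := by
      rcases Nat.lt_or_ge 1 m with h | h
      · obtain ⟨a, ha⟩ := Nat.exists_mul_mod_eq_one_of_coprime hcop h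
        refine ⟨a, ?_⟩
        unfold Nat.ModEq
        rw [ha.2, Nat.mod_eq_of_lt h]
      · have : m = 1 := by omega
        subst this
        exact ⟨0, Nat.modEq_one⟩
    obtain ⟨a, ha⟩ := h1
    refine ⟨(a * (m - 1)) % m, Nat.mod_lt _ hm0, ?_⟩
    have h2 : 1 + (a * (m - 1)) % m * 2 ^ n ≡ 1 + (m - 1) * 1 [MOD m] := by
      apply Nat.ModEq.add_left
      calc (a * (m - 1)) % m * 2 ^ n ≡ (a * (m - 1)) * 2 ^ n [MOD m] :=
            (Nat.mod_modEq _ _).mul_right _
        _ = (m - 1) * (2 ^ n * a) := by ring
        _ ≡ (m - 1) * 1 [MOD m] := ha.mul_left _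
    have h3 : 1 + (m - 1) * 1 = m := by omega
    rw [h3] at h2
    unfold Nat.ModEq at h2
    rw [h2, Nat.mod_self]
  have hmem : ((List.range m).filter (fun j => decide ((1 + j * 2 ^ n) % m = 0))) ≠ [] := by
    intro h
    have : j ∈ ((List.range m).filter (fun j => decide ((1 + j * 2 ^ n) % m = 0))) := by
      rw [List.mem_filter, List.mem_range]
      exact ⟨hj, by simpa using hj2⟩
    rw [h] at this
    simp at this
  obtain ⟨a, l, hal⟩ := List.exists_cons_of_ne_nil hmem
  have ha : a ∈ ((List.range m).filter (fun j => decide ((1 + j * 2 ^ n) % m = 0))) := by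
    rw [hal]; simp
  rw [List.mem_filter, List.mem_range, decide_eq_true_iff] at ha
  have : jinv m n = a := by
    unfold jinv
    rw [hal]
    rfl
  rw [this]
  exact ⟨ha.1, Nat.dvd_of_mod_eq_zero ha.2⟩

theorem sinv_spec {m : ℕ} (hm : Odd m) (n : ℕ) : m * sinv m n = 1 + jinv m n * 2 ^ n := by
  unfold sinv
  exact Nat.mul_div_cancel' (jinv_spec hm n).2

theorem sinv_modEq {m : ℕ} (hm : Odd m) (n : ℕ) : m * sinv m n ≡ 1 [MOD 2 ^ n] := by
  rw [sinv_spec hm]
  unfold Nat.ModEq
  rw [Nat.add_mul_mod_self_right]

theorem sinv_le {m : ℕ} (hm : Odd m) (n : ℕ) : sinv m n ≤ 2 ^ n := by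
  have h1 := sinv_spec hm n
  have h2 := (jinv_spec hm n).1
  have h3 : 0 < 2 ^ n := by positivity
  have h4 : m * sinv m n ≤ m * 2 ^ n := by
    rw [h1]
    calc 1 + jinv m n * 2 ^ n ≤ 2 ^ n + jinv m n * 2 ^ n := by omega
      _ = (jinv m n + 1) * 2 ^ n := by ring
      _ ≤ m * 2 ^ n := Nat.mul_le_mul_right _ h2
  exact Nat.le_of_mul_le_mul_left h4 hm.pos

theorem sinv_compat {m : ℕ} (hm : Odd m) {n n' : ℕ} (h : n ≤ n') :
    sinv m n' ≡ sinv m n [MOD 2 ^ n] := by
  have hcop : Nat.Coprime (2 ^ n) m := Nat.Coprime.pow_left _ ((Nat.coprime_two_left).2 hm)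
  apply Nat.ModEq.cancel_left_of_coprime hcop
  have h1 : m * sinv m n' ≡ 1 [MOD 2 ^ n] :=
    (sinv_modEq hm n').of_dvd (pow_dvd_pow 2 h)
  exact h1.trans (sinv_modEq hm n).symm

/-- the `m`-th root -/
def rt (f : List Bool → List Bool) (m : ℕ) (x : List Bool) : List Bool := f^[sinv m x.length] x

section root

variable (hf : TreeAut f) (ht : LevelTransitive f) {m : ℕ} (hm : Odd m)
include hf

theorem rt_length (x : List Bool) : (rt f m x).length = x.length := iter_len hf _ _

include ht hm

theorem rt_treeAut : TreeAut (rt f m) where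
  bij := by
    constructor
    · intro x y h
      have hl : x.length = y.length := by
        have := congrArg List.length h
        rwa [rt_length hf, rt_length hf] at this
      unfold rt at h
      rw [hl] at h
      exact (hf.iter _).bij.1 h
    · intro y
      obtain ⟨x, hx⟩ := (hf.iter (sinv m y.length)).bij.2 y
      refine ⟨x, ?_⟩
      have hl : x.length = y.length := by
        rw [← hx, iter_len hf]
      unfold rt
      rw [hl, hx]
  len := rt_length hf
  pre x y := by
    have h1 : (rt f m (x ++ y)).take x.length = rt f m x := by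
      unfold rt
      rw [(hf.iter _).take, List.take_left' rfl, iter_eq_iff hf x (ht.at _)]
      exact sinv_compat hm (by simp)
    rw [← h1]
    exact List.take_prefix _ _

theorem rt_iter (x : List Bool) : (rt f m)^[m] x = f x := by
  have key : ∀ j, (rt f m)^[j] x = f^[j * sinv m x.length] x := by
    intro j
    induction j with
    | zero => simp
    | succ j ih =>
      rw [Function.iterate_succ_apply', ih]
      unfold rt
      rw [iter_len hf, ← Function.iterate_add_apply]
      congr 1
      ring
  rw [key]
  have := (iter_eq_iff hf x (ht.at _) (m * sinv m x.length) 1).2 (sinv_modEq hm _)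
  rw [this]
  rfl

end root

/-- A level-transitive automorphism has no roots of even order. -/
theorem odd_of_root {g : List Bool → List Bool} (hg : TreeAut g) (ht : LevelTransitive f)
    {m : ℕ} (h : ∀ x, g^[m] x = f x) : Odd m := by
  by_contra hcon
  rw [Nat.not_odd_iff_even] at hcon
  obtain ⟨k, hk⟩ := hcon
  -- the square of `g` is trivial on the first level
  have h2 : ∀ b : Bool, g (g [b]) = [b] := by
    intro b
    have hl : ∀ x : List Bool, x.length = 1 → x = [true] ∨ x = [false] := by
      intro x hx
      obtain ⟨c, rfl⟩ := List.length_eq_one_iff.1 hx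
      cases c <;> simp
    have g1 := hl (g [true]) (by rw [hg.len]; rfl)
    have g2 := hl (g [false]) (by rw [hg.len]; rfl)
    have hne : g [true] ≠ g [false] := fun h => by
      have := hg.bij.1 h
      simp at this
    rcases g1 with g1 | g1 <;> rcases g2 with g2 | g2
    · exact absurd (g1.trans g2.symm) hne
    · cases b
      · rw [g2, g2]
      · rw [g1, g1]
    · cases b
      · rw [g2, g1]
      · rw [g1, g2]
    · exact absurd (g1.trans g2.symm) hne
  have h3 : ∀ (j : ℕ) (b : Bool), g^[j + j] [b] = [b] := by
    intro j b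
    induction j with
    | zero => rfl
    | succ j ih =>
      rw [show j + 1 + (j + 1) = (j + j) + 2 by ring, Function.iterate_add_apply]
      show g^[j + j] (g (g [b])) = [b]
      rw [h2, ih]
  obtain ⟨t, ht'⟩ := ht [false] [true] rfl
  have h4 : ∀ t, f^[t] [false] = [false] := by
    intro t
    induction t with
    | zero => rfl
    | succ t ih => rw [Function.iterate_succ_apply', ih, ← h, hk, h3]
  rw [h4] at ht'
  simp at ht'

end Pool.Agent.V7H78.TR2
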