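import Pool.Agent.V7H78.TR2.Prog
import Pool.Agent.V7H78.TR2.Level

/-!
# One block of the automorphism
-/

set_option autoImplicit false

namespace Pool.Agent.V7H78.TR2

open Pool.Agent.NPC Pool.Agent.H623R2.PS Function

/-! ### More on portraits and on the odometer -/

theorem auto_getD (g : List Bool → Bool) (x : List Bool) (i : ℕ) (hi : i < x.length) :
    (auto g x).getD i false = (x.getD i false ^^ g (x.take i)) := by
  induction x generalizing g i with
  | nil => simp at hi
  | cons b x ih =>
    rw [auto_cons]
    cases i with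
    | zero => simp
    | succ i =>
      rw [List.getD_cons_succ, List.getD_cons_succ, List.take_succ_cons]
      exact ih _ _ (by simpa using hi)

theorem ext_getD {x y : List Bool} (hl : x.length = y.length)
    (h : ∀ i < x.length, x.getD i false = y.getD i false) : x = y := by
  apply List.ext_getElem hl
  intro i h1 h2
  have := h i h1
  rwa [List.getD_eq_getElem _ _ h1, List.getD_eq_getElem _ _ h2] at this

theorem odometer_iter_length (t : ℕ) (x : List Bool) : (odometer^[t] x).length = x.length :=
  iter_len odometer_treeAut t x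

theorem valB_odometer_iter (t : ℕ) (x : List Bool) :
    (valB (odometer^[t] x) : ℤ) ≡ valB x + t [ZMOD 2 ^ x.length] := by
  induction t with
  | zero => simp
  | succ t ih =>
    rw [Function.iterate_succ_apply']
    have h := valB_odometer (odometer^[t] x)
    rw [odometer_iter_length] at h
    push_cast
    rw [← add_assoc]
    exact h.trans (ih.add_right 1)

theorem valB_zeros (n : ℕ) : valB (List.replicate n false) = 0 := by
  induction n with
  | zero => rfl
  | succ n ih => rw [List.replicate_succ, valB_cons, ih]; simp

/-- the string of length `n` with value `t` -/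
def tb (n t : ℕ) : List Bool := odometer^[t] (List.replicate n false)

@[simp] theorem tb_length (n t : ℕ) : (tb n t).length = n := by
  unfold tb; rw [odometer_iter_length]; simp

theorem tb_zero (n : ℕ) : tb n 0 = List.replicate n false := rfl

theorem valB_tb (n t : ℕ) : valB (tb n t) = t % 2 ^ n := by
  have h := valB_odometer_iter t (List.replicate n false)
  rw [valB_zeros, List.length_replicate] at h
  have h1 : valB (tb n t) ≡ t [MOD 2 ^ n] := by
    rw [← Int.natCast_modEq_iff]
    unfold tb
    simpa using h
  have h2 := valB_lt (tb n t)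
  rw [tb_length] at h2
  rw [← Nat.mod_eq_of_lt h2]
  exact h1

theorem tb_valB (x : List Bool) : tb x.length (valB x) = x := by
  apply valB_inj (by simp)
  rw [valB_tb, Nat.mod_eq_of_lt (valB_lt x)]

theorem odometer_tb (n t : ℕ) : odometer (tb n t) = tb n (t + 1) := by
  unfold tb
  rw [Function.iterate_succ_apply']

theorem tb_period (n : ℕ) : tb n (2 ^ n) = tb n 0 := by
  apply valB_inj (by simp)
  rw [valB_tb, valB_tb]
  simp

theorem odometer_trans : LevelTransitive odometer :=
  trans_of_zero odometer_treeAut fun x => ⟨valB x, tb_valB x⟩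

theorem tb_all {n t : ℕ} (ht : t < 2 ^ n) : (tb n t).all id = true ↔ t + 1 = 2 ^ n := by
  rw [all_iff_valB, valB_tb, Nat.mod_eq_of_lt ht, tb_length]

/-! ### A word followed by registers -/

/-- the string which consists of `w` and the contents of `n` registers -/
def mk (w : List Bool) (n : ℕ) (a : ℕ → Bool) : List Bool := w ++ (List.range n).map a

@[simp] theorem mk_length (w : List Bool) (n : ℕ) (a : ℕ → Bool) :
    (mk w n a).length = w.length + n := by simp [mk]

theorem mk_take (w : List Bool) (n : ℕ) (a : ℕ → Bool) : (mk w n a).take w.length = w :=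
  List.take_left' rfl

theorem mk_getD (w : List Bool) (n : ℕ) (a : ℕ → Bool) {j : ℕ} (hj : j < n) :
    (mk w n a).getD (w.length + j) false = a j := by
  unfold mk
  rw [List.getD_eq_getElem?_getD, List.getElem?_append_right (by omega)]
  simp [hj]

theorem mk_getD_lt (w : List Bool) (n : ℕ) (a : ℕ → Bool) {j : ℕ} (hj : j < w.length) :
    (mk w n a).getD j false = w.getD j false := by
  unfold mk
  rw [List.getD_eq_getElem?_getD, List.getElem?_append_left hj, List.getD_eq_getElem?_getD]

theorem mk_surj {k n : ℕ} {z : List Bool} (hz : z.length = k + n) :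
    mk (z.take k) n (fun j => z.getD (k + j) false) = z := by
  have hk : (z.take k).length = k := by rw [List.length_take]; omega
  apply ext_getD
  · rw [mk_length, hk, hz]
  intro i hi
  rw [mk_length, hk] at hi
  by_cases h : i < k
  · rw [mk_getD_lt _ _ _ (by rw [hk]; exact h)]
    rw [List.getD_eq_getElem?_getD, List.getD_eq_getElem?_getD, List.getElem?_take_of_lt h]
  · obtain ⟨j, rfl⟩ := Nat.exists_eq_add_of_le (not_lt.1 h)
    have := mk_getD (z.take k) n (fun j => z.getD (k + j) false) (j := j) (by omega)
    rw [hk] at this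
    rw [this]

section

variable (k M : ℕ) (qs : List Bool → List Bool) (φ : List Bool → List Bool → Bool)

/-- the look-up in a string -/
def lk (τ : ℕ) (z : List Bool) : ℕ × Bool :=
  lookup (qs (z.take k)) (φ (z.take k)) (2 * M) τ (fun j => z.getD (k + j) false)

/-- the portrait of a step of the program -/
def gz (τ : ℕ) (z : List Bool) : Bool :=
  decide (z.length = k + (lk k M qs φ τ z).1) && (lk k M qs φ τ z).2

/-- a step of the program -/
def pz (τ : ℕ) : List Bool → List Bool := auto (gz k M qs φ τ)

variable {k M qs φ} {n : ℕ} (hq : ∀ w : List Bool, w.length = k → (qs w).length = M)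
  (hn : 2 * M < n)

include hq hn in
theorem pz_mk (τ : ℕ) {w : List Bool} (hw : w.length = k) (a : ℕ → Bool) :
    pz k M qs φ τ (mk w n a) = mk w n (stepA (qs w) (φ w) (2 * M) τ a) := by
  subst hw
  have hqw := hq w rfl
  apply ext_getD
  · unfold pz; rw [auto_length, mk_length, mk_length]
  intro i hi
  unfold pz at hi ⊢
  rw [auto_length] at hi
  rw [auto_getD _ _ _ hi]
  rw [mk_length] at hi
  by_cases h : i < w.length
  · rw [mk_getD_lt _ _ _ h, mk_getD_lt _ _ _ h]
    have : gz w.length M qs φ τ ((mk w n a).take i) = false := by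
      unfold gz
      rw [List.length_take, mk_length]
      have : ¬ (min i (w.length + n) = w.length + (lk w.length M qs φ τ ((mk w n a).take i)).1) := by
        omega
      simp [this]
    rw [this]
    simp
  · obtain ⟨j, rfl⟩ := Nat.exists_eq_add_of_le (not_lt.1 h)
    have hj : j < n := by omega
    rw [mk_getD _ _ _ hj, mk_getD _ _ _ hj]
    set u := (mk w n a).take (w.length + j) with hu
    have hut : u.take w.length = w := by
      rw [hu, List.take_take, min_eq_left (by omega), mk_take]
    have hul : u.length = w.length + j := by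
      rw [hu, List.length_take, mk_length]; omega
    have hreg : ∀ j' < j, u.getD (w.length + j') false = a j' := by
      intro j' hj'
      rw [hu, List.getD_eq_getElem?_getD, List.getElem?_take_of_lt (by omega),
        ← List.getD_eq_getElem?_getD, mk_getD _ _ _ (by omega)]
    have hlk : lk w.length M qs φ τ u =
        lookup (qs w) (φ w) (2 * M) τ (fun j => u.getD (w.length + j) false) := by
      unfold lk; rw [hut]
    have hfst : (lk w.length M qs φ τ u).1 = (lookup (qs w) (φ w) (2 * M) τ a).1 := by
      rw [hlk]; exact lookup_fst _ _ _ _ _ _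
    unfold gz
    rw [hul]
    unfold stepA flipAt
    by_cases hji : j = (lookup (qs w) (φ w) (2 * M) τ a).1
    · have hcongr : lk w.length M qs φ τ u = lookup (qs w) (φ w) (2 * M) τ a := by
        rw [hlk]
        apply lookup_congr _ _ _ _ _ _ (by rw [hqw])
        intro j' hj'
        rw [← hlk, hfst, ← hji] at hj'
        exact hreg j' hj'
      rw [hcongr, ← hji, update_self]
      simp
    · rw [update_of_ne hji]
      have : ¬ (w.length + j = w.length + (lk w.length M qs φ τ u).1) := by
        rw [hfst]; omega
      rw [decide_eq_false this]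
      simp

variable (c : ℕ)

variable (M) in
/-- the time of the program at time `τ` of the clock -/
def tm (τ : ℕ) : ℕ :=
  if τ < 8 ^ M then τ else if 2 ^ c - 2 * 8 ^ M ≤ τ then τ - (2 ^ c - 2 * 8 ^ M) else 8 ^ M

variable (k M qs φ) in
/-- the portrait of the block -/
def gb (v : List Bool) : Bool :=
  v.all id ^^ (decide (c ≤ v.length) && (decide (tm M c (valB (v.take c)) < 8 ^ M) &&
    gz k M qs φ (tm M c (valB (v.take c))) (v.drop c)))

variable (k M qs φ) in
/-- the block -/
def FB : List Bool → List Bool := auto (gb k M qs φ c)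

variable (k M qs φ) in
/-- a step of the program, with the idle steps -/
def Pz (τ : ℕ) (z : List Bool) : List Bool :=
  if tm M c τ < 8 ^ M then pz k M qs φ (tm M c τ) z else z

variable {c}

omit hq hn in
theorem tm_last (hc : 4 * 8 ^ M ≤ 2 ^ c) {τ : ℕ} (h : 2 ^ c - 8 ^ M ≤ τ) : 8 ^ M ≤ tm M c τ := by
  have hpos : 0 < 8 ^ M := by positivity
  unfold tm
  rw [if_neg (by omega), if_pos (by omega)]
  omega

omit hq hn in
theorem FB_append {T z : List Bool} (hT : T.length = c) (hc : 4 * 8 ^ M ≤ 2 ^ c) :
    FB k M qs φ c (T ++ z) = odometer T ++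
      (if T.all id then odometer z else Pz k M qs φ c (valB T) z) := by
  unfold FB
  rw [auto_append]
  congr 1
  · rw [odometer_eq]
    apply auto_congr
    intro i hi
    unfold gb
    rw [List.length_take]
    have : ¬ (c ≤ min i T.length) := by omega
    simp [this]
  · have hg : ∀ u : List Bool, gb k M qs φ c (T ++ u) = ((T.all id && u.all id) ^^
        (decide (tm M c (valB T) < 8 ^ M) && gz k M qs φ (tm M c (valB T)) u)) := by
      intro u
      unfold gb
      rw [List.length_append, List.all_append, List.take_left' hT, List.drop_left' hT, hT]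
      simp
    have hg' : (fun u => gb k M qs φ c (T ++ u)) = fun u => ((T.all id && u.all id) ^^
        (decide (tm M c (valB T) < 8 ^ M) && gz k M qs φ (tm M c (valB T)) u)) := funext hg
    rw [hg']
    split_ifs with hall
    · have hpos : 0 < 8 ^ M := by positivity
      have h1 : ¬ (tm M c (valB T) < 8 ^ M) := by
        have h2 := (all_iff_valB T).1 hall
        rw [hT] at h2
        have := tm_last hc (τ := valB T) (by omega)
        omega
      rw [odometer_eq]
      simp [h1, hall]
    · unfold Pz
      have hall' : T.all id = false := by simpa using hall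
      rw [hall']
      split_ifs with h1
      · unfold pz
        simp [h1]
      · simp only [h1, decide_false, Bool.false_and, Bool.bne_false]
        exact auto_false z

variable (k M qs φ c) in
/-- the second component after `t` steps -/
def Zt : ℕ → List Bool → List Bool
  | 0, z => z
  | t + 1, z => Pz k M qs φ c t (Zt t z)

omit hq hn in
theorem FB_iter (hc : 4 * 8 ^ M ≤ 2 ^ c) (z : List Bool) (t : ℕ) (ht : t < 2 ^ c) :
    (FB k M qs φ c)^[t] (tb c 0 ++ z) = tb c t ++ Zt k M qs φ c t z := by
  induction t with
  | zero => rfl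
  | succ t ih =>
    rw [Function.iterate_succ_apply', ih (by omega), FB_append (by simp) hc, odometer_tb]
    congr 1
    rw [if_neg]
    · rw [valB_tb, Nat.mod_eq_of_lt (show t < 2 ^ c by omega)]
      rfl
    · rw [tb_all (by omega)]
      omega

omit hq hn in
theorem Zt_treeAut (t : ℕ) : TreeAut (Zt k M qs φ c t) := by
  induction t with
  | zero => exact TreeAut.id'
  | succ t ih =>
    have : Zt k M qs φ c (t + 1) = fun z => Pz k M qs φ c t (Zt k M qs φ c t z) := rfl
    rw [this]
    refine TreeAut.comp ?_ ih
    unfold Pz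
    by_cases h : tm M c t < 8 ^ M
    · simp only [h, if_true]
      exact auto_treeAut _
    · simp only [h, if_false]
      exact TreeAut.id'

include hq hn in
theorem Pz_mk (τ : ℕ) {w : List Bool} (hw : w.length = k) (a : ℕ → Bool) :
    Pz k M qs φ c τ (mk w n a) = mk w n (if tm M c τ < 8 ^ M then
      stepA (qs w) (φ w) (2 * M) (tm M c τ) a else a) := by
  unfold Pz
  split_ifs
  · exact pz_mk hq hn _ hw a
  · rfl

include hq hn in
/-- the first part of the time -/
theorem Zt_first (hc : 4 * 8 ^ M ≤ 2 ^ c) {w : List Bool} (hw : w.length = k) (a : ℕ → Bool)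
    (t : ℕ) (ht : t ≤ 2 ^ c - 2 * 8 ^ M) :
    Zt k M qs φ c t (mk w n a) = mk w n (runA (qs w) (φ w) (2 * M) (min t (8 ^ M)) a) := by
  induction t with
  | zero => simp [Zt, runA]
  | succ t ih =>
    rw [Zt, ih (by omega), Pz_mk hq hn _ hw]
    congr 1
    have htm : tm M c t = if t < 8 ^ M then t else 8 ^ M := by
      unfold tm
      split_ifs <;> first | rfl | omega
    rw [htm]
    by_cases h : t < 8 ^ M
    · rw [if_pos h, if_pos h, min_eq_left (by omega), min_eq_left (by omega)]
      rfl
    · rw [if_neg h, if_neg (lt_irrefl _), min_eq_right (by omega), min_eq_right (by omega)]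

include hq hn in
/-- the last part of the time -/
theorem Zt_second (hc : 4 * 8 ^ M ≤ 2 ^ c) {w : List Bool} (hw : w.length = k) (a : ℕ → Bool)
    (r : ℕ) (hr : r < 2 * 8 ^ M) :
    Zt k M qs φ c ((2 ^ c - 2 * 8 ^ M) + r) (mk w n a) =
      mk w n (runA (qs w) (φ w) (2 * M) (min r (8 ^ M)) (fullA (qs w) (φ w) (2 * M) a)) := by
  have hpos : 0 < 8 ^ M := by positivity
  induction r with
  | zero =>
    rw [add_zero, Zt_first hq hn hc hw a _ le_rfl, min_eq_right (by omega)]
    simp only [Nat.zero_min, runA]
    unfold fullA
    rw [hq w hw]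
  | succ r ih =>
    rw [← add_assoc, Zt, ih (by omega), Pz_mk hq hn _ hw]
    congr 1
    have htm : tm M c ((2 ^ c - 2 * 8 ^ M) + r) = r := by
      unfold tm
      rw [if_neg (by omega), if_pos (by omega)]
      omega
    rw [htm]
    by_cases h : r < 8 ^ M
    · rw [if_pos h, min_eq_left (by omega), min_eq_left (by omega)]
      rfl
    · rw [if_neg h, min_eq_right (by omega), min_eq_right (by omega)]

include hq hn in
theorem Zt_last (hc : 4 * 8 ^ M ≤ 2 ^ c) {w : List Bool} (hw : w.length = k) (a : ℕ → Bool) :
    Zt k M qs φ c (2 ^ c - 1) (mk w n a) = mk w n a := by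
  have hpos : 0 < 8 ^ M := by positivity
  have h1 : 2 ^ c - 1 = (2 ^ c - 2 * 8 ^ M) + (2 * 8 ^ M - 1) := by omega
  rw [h1, Zt_second hq hn hc hw a _ (by omega), min_eq_right (by omega)]
  congr 1
  have h2 : runA (qs w) (φ w) (2 * M) (8 ^ M) (fullA (qs w) (φ w) (2 * M) a) =
      fullA (qs w) (φ w) (2 * M) (fullA (qs w) (φ w) (2 * M) a) := by
    conv_rhs => unfold fullA
    rw [hq w hw]
    unfold fullA
    rw [hq w hw]
  rw [h2]
  exact full_full _ _ _ (by rw [hq w hw]) a

include hq hn in
theorem FB_cycle (hc : 4 * 8 ^ M ≤ 2 ^ c) {z : List Bool} (hz : z.length = k + n) :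
    (FB k M qs φ c)^[2 ^ c] (tb c 0 ++ z) = tb c 0 ++ odometer z := by
  have hpos : 0 < 2 ^ c := by positivity
  have h1 : 2 ^ c = (2 ^ c - 1) + 1 := by omega
  rw [h1, Function.iterate_succ_apply', FB_iter hc z _ (by omega)]
  have hw : (z.take k).length = k := by rw [List.length_take]; omega
  have h2 := Zt_last (φ := φ) hq hn hc hw (fun j => z.getD (k + j) false)
  rw [mk_surj hz] at h2
  rw [h2, FB_append (by simp) hc, odometer_tb, ← h1, tb_period]
  congr 1
  rw [if_pos]
  rw [tb_all (by omega)]
  omega

include hq hn in
theorem FB_cycles (hc : 4 * 8 ^ M ≤ 2 ^ c) (q : ℕ) {z : List Bool} (hz : z.length = k + n) :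
    (FB k M qs φ c)^[2 ^ c * q] (tb c 0 ++ z) = tb c 0 ++ odometer^[q] z := by
  induction q with
  | zero => rfl
  | succ q ih =>
    rw [Nat.mul_succ, add_comm, Function.iterate_add_apply, ih,
      FB_cycle hq hn hc (by rw [odometer_iter_length, hz]), ← Function.iterate_succ_apply' odometer]

include hq hn in
theorem FB_trans (hc : 4 * 8 ^ M ≤ 2 ^ c) (b : List Bool) (hb : b.length = c + (k + n)) :
    ∃ t, (FB k M qs φ c)^[t] (List.replicate b.length false) = b := by
  obtain ⟨T, z, rfl, hT⟩ : ∃ T z, b = T ++ z ∧ T.length = c :=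
    ⟨b.take c, b.drop c, (List.take_append_drop _ _).symm, by
      rw [List.length_take]; omega⟩
  have hz : z.length = k + n := by rw [List.length_append] at hb; omega
  obtain ⟨z', hz'⟩ := (Zt_treeAut (k := k) (M := M) (qs := qs) (φ := φ) (c := c) (valB T)).bij.2 z
  have hl : z'.length = k + n := by
    rw [← hz, ← hz', (Zt_treeAut _).len]
  have hv : valB T < 2 ^ c := by rw [← hT]; exact valB_lt T
  refine ⟨valB T + 2 ^ c * valB z', ?_⟩
  have h0 : List.replicate (T ++ z).length false = tb c 0 ++ List.replicate (k + n) false := by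
    rw [tb_zero, ← List.replicate_add, List.length_append, hT, hz]
  rw [Function.iterate_add_apply, h0, FB_cycles hq hn hc _ (by simp)]
  have h1 : odometer^[valB z'] (List.replicate (k + n) false) = z' := by
    rw [← hl]; exact tb_valB z'
  rw [h1, FB_iter hc _ _ hv, hz']
  congr 1
  rw [← hT]
  exact tb_valB T

end

end Pool.Agent.V7H78.TR2
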