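import Pool.Agent.V7H78.TR2.Fwd

/-!
# The group of polynomial-time automorphisms
-/

set_option autoImplicit false

namespace Pool.Agent.V7H78.TR2

open Pool.Agent.NPC Pool.Agent.H623R2.PS Function
open Pool.Agent.H656R2.AK (QF evc qbf_hard)

/-- `f` is in the group of polynomial-time automorphisms of the rooted binary tree: `f` is an
automorphism, and `f` and its inverse are computable in polynomial time. -/
def PAut (f : List Bool → List Bool) : Prop :=
  TreeAut f ∧ PolyTime f ∧ ∃ f' : List Bool → List Bool, PolyTime f' ∧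
    (∀ x, f' (f x) = x) ∧ ∀ x, f (f' x) = x

theorem PAut.of {f : List Bool → List Bool} (hf : TreeAut f) (hp : NPC.Poly f) : PAut f :=
  ⟨hf, NPC.PIso.poly_iff.1 hp, invF f, NPC.PIso.poly_iff.1 (poly_invF hp), invF_f hf, f_invF hf⟩

theorem PAut.poly {f : List Bool → List Bool} (hf : PAut f) : NPC.Poly f :=
  NPC.PIso.poly_iff.2 hf.2.1

theorem PAut.comp {f g : List Bool → List Bool} (hf : PAut f) (hg : PAut g) :
    PAut (fun x => f (g x)) :=
  PAut.of (hf.1.comp hg.1) (hf.poly.comp hg.poly)

theorem PAut.inverse {f : List Bool → List Bool} (hf : PAut f) : ∃ f' : List Bool → List Bool,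
    PAut f' ∧ (∀ x, f' (f x) = x) ∧ ∀ x, f (f' x) = x :=
  ⟨invF f, PAut.of (invF_treeAut hf.1) (poly_invF hf.poly), invF_f hf.1, f_invF hf.1⟩

theorem PAut.iter {f : List Bool → List Bool} (hf : PAut f) (n : ℕ) : PAut f^[n] := by
  induction n with
  | zero => exact PAut.of TreeAut.id' NPC.Poly.id
  | succ n ih =>
    have h : f^[n + 1] = fun x => f (f^[n] x) := by
      funext x
      rw [Function.iterate_succ_apply']
    rw [h]
    exact hf.comp ih

theorem semiconj_iter {f g h : List Bool → List Bool} (H : ∀ x, h (f x) = g (h x)) (n : ℕ)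
    (x : List Bool) : h (f^[n] x) = g^[n] (h x) := by
  induction n generalizing x with
  | zero => rfl
  | succ n ih => rw [Function.iterate_succ_apply, ih, H, Function.iterate_succ_apply]

/-! ### The case of a collapse -/

section collapse

variable (hP : ∀ L, InPSPACE L → InP L) {f g : List Bool → List Bool} (hf : PAut f)
  (ht : LevelTransitive f)

include hP hf ht in
theorem pAut_orb : PAut (orb f) :=
  PAut.of (orb_treeAut hf.1 ht) (poly_orb hP hf.1 hf.poly)

include hP hf ht in
theorem conj_of_collapse (hg : PAut g) (ht' : LevelTransitive g) :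
    ∃ h, PAut h ∧ ∀ x, h (f x) = g (h x) := by
  obtain ⟨k, hk, hk1, hk2⟩ := (pAut_orb hP hf ht).inverse
  refine ⟨fun x => orb g (k x), (pAut_orb hP hg ht').comp hk, fun x => ?_⟩
  have h1 : k (f x) = odometer (k x) := by
    have := orb_odometer hf.1 ht (k x)
    rw [hk2] at this
    rw [← this, hk1]
  show orb g (k (f x)) = g (orb g (k x))
  rw [h1, orb_odometer hg.1 ht']

end collapse

theorem toB_valB_iter (n t : ℕ) (x : List Bool) (hx : x.length = n) :
    odometer^[t] x = toB n (valB x + t) := by
  subst hx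
  apply valB_inj (by rw [odometer_iter_length]; simp)
  rw [valB_toB]
  have h1 := valB_odometer_iter t x
  have h2 : valB (odometer^[t] x) ≡ valB x + t [MOD 2 ^ x.length] := by
    rw [← Int.natCast_modEq_iff]
    push_cast
    exact h1
  have h3 := valB_lt (odometer^[t] x)
  rw [odometer_iter_length] at h3
  rw [← Nat.mod_eq_of_lt h3]
  exact h2

theorem pAut_odometer : PAut odometer := by
  refine PAut.of odometer_treeAut ?_
  refine (poly_auto (g := fun u => u.all fun b => b) (by fun_prop)).congr fun x => ?_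
  rw [odometer_eq]
  rfl

/-- The odometer has roots of all odd orders. -/
theorem odometer_root {m : ℕ} (hm : Odd m) : ∃ g, PAut g ∧ ∀ x, g^[m] x = odometer x := by
  refine ⟨rt odometer m, PAut.of (rt_treeAut odometer_treeAut odometer_trans hm) ?_,
    rt_iter odometer_treeAut odometer_trans hm⟩
  have hk : UPoly (fun x : List Bool => x.length) := UPoly.length NPC.Poly.id
  have h1 := poly_sinv m hk
  have h2 : NPC.Poly (fun x : List Bool => valB x) := NPC.Poly.valBits NPC.Poly.id
  refine (poly_toB hk (v := fun x => valB x + sinv m x.length) (by fun_prop)).congr fun x => ?_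
  unfold rt
  rw [toB_valB_iter _ _ _ rfl]

/-- A conjugate of the odometer has roots of all odd orders. -/
theorem root_of_conj {f : List Bool → List Bool} (h : ∃ h, PAut h ∧ ∀ x, h (f x) = odometer (h x))
    {m : ℕ} (hm : Odd m) : ∃ g, PAut g ∧ ∀ x, g^[m] x = f x := by
  obtain ⟨h, hh, h1⟩ := h
  obtain ⟨k, hk, hk1, hk2⟩ := hh.inverse
  obtain ⟨g, hg, hg1⟩ := odometer_root hm
  refine ⟨fun x => k (g (h x)), hk.comp (hg.comp hh), fun x => ?_⟩
  have h2 : h ((fun x => k (g (h x)))^[m] x) = g^[m] (h x) :=
    semiconj_iter (f := fun x => k (g (h x))) (g := g) (h := h) (fun x => hk2 _) m x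
  rw [hg1, ← h1] at h2
  exact hh.1.bij.1 h2

/-- Odd powers of level-transitive automorphisms are level-transitive. -/
theorem trans_iter {f : List Bool → List Bool} (hf : TreeAut f) (ht : LevelTransitive f) {m : ℕ}
    (hm : Odd m) : LevelTransitive f^[m] := by
  intro x y hxy
  obtain ⟨t, h⟩ := ht x y hxy
  refine ⟨sinv m x.length * t, ?_⟩
  rw [← Function.iterate_mul, ← h, iter_eq_iff hf x (ht.at _)]
  have := (sinv_modEq hm x.length).mul_right t
  rw [one_mul, mul_assoc] at this
  exact this

/-- Membership in P implies membership in PSPACE. -/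
theorem inPSPACE_of_inP {L : Set (List Bool)} (h : InP L) : InPSPACE L := by
  obtain ⟨V, hV, hL⟩ := h
  have hVp : NPC.Poly V := NPC.PIso.poly_iff.2 hV
  refine inPSPACE_of_evq (init := V) hVp (qs := fun _ => []) (NPC.Poly.const _)
    (φ := fun a _ => decide (a = [true])) (by fun_prop) fun x => ?_
  rw [hL]
  simp [evq]

/-! ### A hard instance -/

/-- decoding of quantified formulas -/
def inst0 (z : List Bool) : QF := (unbits QF z).getD ([], [[]])

theorem poly_inst0 : NPC.Poly inst0 := by
  unfold inst0
  exact NPC.Poly.optGetD poly_unbits (NPC.Poly.const _)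

/-- the true formulas -/
def L0 : Set (List Bool) :=
  {z | evq (inst0 z).1 (fun v => evc v (inst0 z).2) = true}

theorem L0_hard {L : Set (List Bool)} (hL : InPSPACE L) : Reduces L L0 := by
  obtain ⟨f, hf, _, hf'⟩ := qbf_hard hL
  refine ⟨fun x => bits (f x), polyTime_bits hf, fun x => ?_⟩
  rw [hf']
  unfold L0 inst0
  rw [Set.mem_ofPred_eq, unbits_bits]
  rfl

theorem exists_mu : ∃ μ : Polynomial ℕ, ∀ w, (inst0 w).1.length ≤ MM μ w.length := by
  obtain ⟨r, hr⟩ := (NPC.Poly.fst poly_inst0).sz_le
  refine ⟨r.comp (4 * Polynomial.X + 1), fun w => ?_⟩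
  unfold MM
  have h1 := hr w
  have h2 := length_lt_sz (inst0 w).1
  have h3 : r.eval (sz w) ≤ r.eval (4 * w.length + 1) := eval_mono r (sz_listBool_le w)
  simp only [Polynomial.eval_add, Polynomial.eval_mul, Polynomial.eval_X, Polynomial.eval_one,
    Polynomial.eval_ofNat, Polynomial.eval_comp]
  omega

end Pool.Agent.V7H78.TR2
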