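import Pool.Agent.V7H78.TR2.PolyB

/-!
# What follows if polynomial space collapses
-/

set_option autoImplicit false

namespace Pool.Agent.V7H78.TR2

open Pool.Agent.NPC Pool.Agent.H623R2.PS Function

/-! ### The inverse of an automorphism -/

/-- the inverse, bit by bit -/
def invF (f : List Bool → List Bool) (y : List Bool) : List Bool :=
  y.foldl (fun p b => p ++ [b ^^ (f (p ++ [false])).getD p.length false]) []

theorem invF_length (f : List Bool → List Bool) (y : List Bool) : (invF f y).length = y.length := by
  unfold invF
  have : ∀ (y p : List Bool), (y.foldl (fun p b => p ++ [b ^^ (f (p ++ [false])).getD p.length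
      false]) p).length = p.length + y.length := by
    intro y
    induction y with
    | nil => intro p; simp
    | cons b y ih => intro p; rw [List.foldl_cons, ih]; simp; omega
  rw [this]; simp

theorem f_invF {f : List Bool → List Bool} (hf : TreeAut f) (y : List Bool) :
    f (invF f y) = y := by
  induction y using List.reverseRecOn with
  | nil =>
    have := hf.len []
    exact List.length_eq_zero_iff.1 this
  | append_singleton y b ih =>
    have hstep : invF f (y ++ [b]) = invF f y ++ [b ^^ (f (invF f y ++ [false])).getD
        (invF f y).length false] := by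
      unfold invF
      rw [List.foldl_append]
      rfl
    rw [hstep]
    set p := invF f y with hp
    have hpl : p.length = y.length := invF_length f y
    -- the images of the two extensions
    have hext : ∀ c : Bool, f (p ++ [c]) = y ++ [(f (p ++ [c])).getD p.length false] := by
      intro c
      have h1 := hf.take (p ++ [c]) p.length
      rw [List.take_left' rfl, ih] at h1
      have hl : (f (p ++ [c])).length = p.length + 1 := by rw [hf.len]; simp
      apply ext_getD (by rw [hl]; simp [hpl])
      intro i hi
      rw [hl] at hi
      by_cases h2 : i < y.length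
      · have h3 : y.getD i false = (f (p ++ [c])).getD i false := by
          conv_lhs => rw [← h1]
          rw [List.getD_eq_getElem?_getD, List.getElem?_take_of_lt (by omega),
            ← List.getD_eq_getElem?_getD]
        rw [List.getD_append _ _ _ _ h2, h3]
      · have h3 : i = y.length := by omega
        subst h3
        rw [List.getD_append_right _ _ _ _ le_rfl, hpl]
        simp
    have hne : (f (p ++ [true])).getD p.length false ≠ (f (p ++ [false])).getD p.length false := by
      intro h
      have h1 : f (p ++ [true]) = f (p ++ [false]) := by rw [hext true, hext false, h]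
      have h2 := hf.bij.1 h1
      simp at h2
    rw [hext]
    congr 2
    generalize he0 : (f (p ++ [false])).getD p.length false = e0 at hne ⊢
    rcases hb : (b ^^ e0) with _ | _
    · rw [he0]
      cases b <;> cases e0 <;> simp at hb ⊢
    · generalize (f (p ++ [true])).getD p.length false = e1 at hne ⊢
      cases b <;> cases e0 <;> cases e1 <;> simp at hb hne ⊢

theorem invF_f {f : List Bool → List Bool} (hf : TreeAut f) (x : List Bool) :
    invF f (f x) = x := hf.bij.1 (f_invF hf (f x))

theorem invF_treeAut {f : List Bool → List Bool} (hf : TreeAut f) : TreeAut (invF f) :=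
  hf.inv (invF_f hf) (f_invF hf)

theorem poly_invF {f : List Bool → List Bool} (hp : NPC.Poly f) :
    NPC.Poly (invF f) := by
  unfold invF
  refine NPC.Poly.foldl (l := fun y : List Bool => y) (s := fun _ => ([] : List Bool))
    (F := fun _ p b => p ++ [b ^^ (f (p ++ [false])).getD p.length false]) NPC.Poly.id
    (NPC.Poly.const _) ?_ (4 * Polynomial.X + 1) ?_
  · have h1 : NPC.Poly (fun q : List Bool × List Bool × Bool => f (q.2.1 ++ [false])) :=
      hp.comp (f := fun q : List Bool × List Bool × Bool => q.2.1 ++ [false]) (by fun_prop)
    fun_prop
  · intro y k hk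
    have h1 := invF_length f (y.take k)
    unfold invF at h1
    refine (sz_listBool_le _).trans ?_
    rw [h1, List.length_take]
    have h2 := length_lt_sz y
    simp only [Polynomial.eval_add, Polynomial.eval_mul, Polynomial.eval_X, Polynomial.eval_one,
      Polynomial.eval_ofNat]
    omega

/-! ### Iterates -/

section

variable {α : Type} [TEnc α]

theorem poly_bits : NPC.Poly (fun a : α => bits a) := by
  have h : PC (bits : α → List Bool) (fun x : List Bool => x) (fun a : α => bits a) :=
    (PC.id : PC (bits : α → List Bool) bits (fun a => a))
  exact PC.comp (g := fun x : List Bool => x) (f := fun a : α => bits a) PC.rawIn h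

end

/-- a bit of an iterate -/
def IterBit (f : List Bool → List Bool) (p : List Bool × ℕ × ℕ) : Prop :=
  (f^[p.2.1] p.1).getD p.2.2 false = true

/-- one step -/
def stp (f : List Bool → List Bool) (p : List Bool × ℕ × ℕ) : List Bool × ℕ × ℕ :=
  (bif decide (p.2.1 = 0) then p.1 else f p.1, p.2.1 - 1, p.2.2)

theorem stp_iter (f : List Bool → List Bool) (i : ℕ) : ∀ (p : List Bool × ℕ × ℕ), i ≤ p.2.1 →
    (stp f)^[i] p = (f^[i] p.1, p.2.1 - i, p.2.2) := by
  induction i with
  | zero => intro p _; rfl
  | succ i ih =>
    intro p hp
    rw [Function.iterate_succ_apply', ih p (by omega), stp]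
    have h : ¬ (p.2.1 - i = 0) := by omega
    simp only [h, decide_false, cond_false]
    rw [Function.iterate_succ_apply']
    congr 2

theorem optMap_iter {β : Type} (s : β → β) (n : ℕ) (o : Option β) :
    (Option.map s)^[n] o = o.map s^[n] := by
  induction n generalizing o with
  | zero => cases o <;> rfl
  | succ n ih => rw [Function.iterate_succ_apply, ih]; cases o <;> rfl

theorem inPSPACE_iterBit {f : List Bool → List Bool} (hl : ∀ x, (f x).length = x.length)
    (hp : NPC.Poly f) : InPSPACE (lang (IterBit f)) := by
  have hlen : ∀ n x, (f^[n] x).length = x.length := by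
    intro n
    induction n with
    | zero => intro x; rfl
    | succ n ih => intro x; rw [Function.iterate_succ_apply, ih, hl]
  have hstp : NPC.Poly (stp f) := by
    unfold stp
    fun_prop
  let N : List Bool → ℕ := fun z => ((unbits (List Bool × ℕ × ℕ) z).map (fun p => p.2.1)).getD 0
  have hit : ∀ (n : ℕ) (z : List Bool), (fun b : Option (List Bool × ℕ × ℕ) =>
      ((b.elim true (fun p => decide (p.2.1 = 0)), b.map (stp f)) :
        Bool × Option (List Bool × ℕ × ℕ)).2)^[n] (unbits (List Bool × ℕ × ℕ) z) =
      (unbits (List Bool × ℕ × ℕ) z).map (stp f)^[n] := fun n z => optMap_iter _ n _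
  refine inPSPACE_of_process (β := Option (List Bool × ℕ × ℕ))
    (init := fun z => unbits (List Bool × ℕ × ℕ) z) poly_unbits
    (F := fun b => (b.elim true (fun p => decide (p.2.1 = 0)), b.map (stp f))) ?_
    (out := fun b => b.elim false (fun p => p.1.getD p.2.2 false)) ?_
    (12 * Polynomial.X + 20) N ?_ ?_ ?_ ?_
  · have h1 : NPC.Poly (fun p : Option (List Bool × ℕ × ℕ) × (List Bool × ℕ × ℕ) => stp f p.2) :=
      hstp.comp (NPC.Poly.snd NPC.Poly.id)
    have h2 : NPC.Poly (fun b : Option (List Bool × ℕ × ℕ) =>
        b.elim true (fun p => decide (p.2.1 = 0))) :=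
      NPC.Poly.optElim (o := fun b : Option (List Bool × ℕ × ℕ) => b) (g := fun _ => true)
        (h := fun _ p => decide (p.2.1 = 0)) NPC.Poly.id (NPC.Poly.const _) (by fun_prop)
    have h3 : NPC.Poly (fun b : Option (List Bool × ℕ × ℕ) => b.map (stp f)) :=
      NPC.Poly.optMap_fp (o := fun b : Option (List Bool × ℕ × ℕ) => b)
        (h := fun _ p => stp f p) NPC.Poly.id h1
    exact NPC.Poly.pair h2 h3
  · exact NPC.Poly.optElim (o := fun b : Option (List Bool × ℕ × ℕ) => b) (g := fun _ => false)
        (h := fun _ p => p.1.getD p.2.2 false) NPC.Poly.id (NPC.Poly.const _) (by fun_prop)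
  · intro z i hi
    rw [hit]
    simp only [N] at hi
    rcases hz : unbits (List Bool × ℕ × ℕ) z with _ | p
    · rw [hz] at hi; simp at hi
    · rw [hz] at hi
      simp only [Option.map_some, Option.getD_some] at hi
      simp only [Option.map_some, Option.elim_some]
      rw [stp_iter f i p hi.le]
      simp only [decide_eq_false_iff_not]
      omega
  · intro z
    rw [hit]
    simp only [N]
    rcases hz : unbits (List Bool × ℕ × ℕ) z with _ | p
    · rfl
    · simp only [Option.map_some, Option.getD_some, Option.elim_some]
      rw [stp_iter f _ p le_rfl]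
      simp
  · intro z i hi
    rw [hit]
    simp only [N] at hi
    simp only [Polynomial.eval_add, Polynomial.eval_mul, Polynomial.eval_X, Polynomial.eval_ofNat]
    rcases hz : unbits (List Bool × ℕ × ℕ) z with _ | p
    · simp
    · rw [hz] at hi
      simp only [Option.map_some, Option.getD_some] at hi
      simp only [Option.map_some]
      have hsz : sz p = z.length := by
        rw [← bits_length, bits_of_unbits hz]
      have key : ∀ j ≤ p.2.1, sz (some ((stp f)^[j] p)) ≤ 12 * z.length + 20 := by
        intro j hj
        rw [stp_iter f j p hj]
        obtain ⟨x, t, m⟩ := p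
        simp only [sz_some, sz_pair] at hsz ⊢
        have h1 : sz (f^[j] x) ≤ 4 * x.length + 1 := by
          have := sz_listBool_le (f^[j] x)
          rwa [hlen] at this
        have h2 := sz_listBool_ge x
        have h3 : sz (t - j) ≤ 2 * sz t := sz_nat_mono_le (Nat.sub_le _ _)
        omega
      by_cases h : i ≤ p.2.1
      · exact key i h
      · have h1 : i = p.2.1 + 1 := by omega
        subst h1
        have h2 : (stp f)^[p.2.1 + 1] p = (stp f)^[p.2.1] p := by
          rw [Function.iterate_succ_apply', stp_iter f _ p le_rfl]
          simp [stp]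
        rw [h2]
        exact key _ le_rfl
  · intro z
    rw [hit, mem_lang_iff]
    simp only [N]
    rcases hz : unbits (List Bool × ℕ × ℕ) z with _ | p
    · simp
    · simp only [Option.map_some, Option.getD_some, Option.elim_some]
      have h2 : (stp f)^[p.2.1 + 1] p = (stp f)^[p.2.1] p := by
        rw [Function.iterate_succ_apply', stp_iter f _ p le_rfl]
        simp [stp]
      rw [h2, stp_iter f _ p le_rfl]
      simp [IterBit]

/-- The conjugating automorphism. -/
def orb (f : List Bool → List Bool) (x : List Bool) : List Bool :=
  f^[valB x] (List.replicate x.length false)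

theorem poly_orb (hP : ∀ L, InPSPACE L → InP L) {f : List Bool → List Bool} (hf : TreeAut f)
    (hp : NPC.Poly f) : NPC.Poly (orb f) := by
  have h := hP _ (inPSPACE_iterBit hf.len hp)
  obtain ⟨V, hV, hV'⟩ := h
  have hVp : NPC.Poly V := NPC.PIso.poly_iff.2 hV
  have hd : NPC.Poly (fun a : List Bool × ℕ × ℕ => decide (V (bits a) = [true])) := by
    have h1 : NPC.Poly (fun a : List Bool × ℕ × ℕ => V (bits a)) :=
      hVp.comp (f := fun a : List Bool × ℕ × ℕ => bits a) poly_bits
    exact NPC.Poly.decide_eq h1 (NPC.Poly.const _)
  have hspec : ∀ a : List Bool × ℕ × ℕ, decide (V (bits a) = [true]) =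
      (f^[a.2.1] a.1).getD a.2.2 false := by
    intro a
    rw [Bool.eq_iff_iff, decide_eq_true_iff, ← hV', bits_mem_lang]
    rfl
  have hrep : NPC.Poly (fun x : List Bool => List.replicate x.length false) :=
    poly_replicate (UPoly.length NPC.Poly.id) false
  have hval : NPC.Poly (fun x : List Bool => valB x) := NPC.Poly.valBits NPC.Poly.id
  refine (NPC.Poly.map (l := fun x : List Bool => List.range x.length)
    (F := fun x i => decide (V (bits ((List.replicate x.length false, valB x, i) :
      List Bool × ℕ × ℕ)) = [true])) (by fun_prop) ?_).congr ?_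
  · have hrep' := hrep.comp (f := fun p : List Bool × ℕ => p.1) (NPC.Poly.fst NPC.Poly.id)
    have hval' := hval.comp (f := fun p : List Bool × ℕ => p.1) (NPC.Poly.fst NPC.Poly.id)
    exact hd.comp (f := fun p : List Bool × ℕ =>
      ((List.replicate p.1.length false, valB p.1, p.2) : List Bool × ℕ × ℕ))
      (NPC.Poly.pair hrep' (NPC.Poly.pair hval' (NPC.Poly.snd NPC.Poly.id)))
  · intro x
    have hl : (orb f x).length = x.length := by
      unfold orb
      rw [iter_len hf]
      simp
    apply ext_getD (by rw [hl]; simp)
    intro i hi
    rw [List.length_map, List.length_range] at hi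
    rw [List.getD_eq_getElem _ _ (by simpa using hi)]
    simp only [List.getElem_map, List.getElem_range]
    rw [hspec]
    rfl

section

variable {f : List Bool → List Bool} (hf : TreeAut f) (ht : LevelTransitive f)
include hf

theorem orb_length (x : List Bool) : (orb f x).length = x.length := by
  unfold orb
  rw [iter_len hf]
  simp

include ht

theorem orb_treeAut : TreeAut (orb f) := by
  have hzero : ∀ n s t, f^[s] (List.replicate n false) = f^[t] (List.replicate n false) ↔
      s ≡ t [MOD 2 ^ n] := by
    intro n s t
    have := iter_eq_iff hf (List.replicate n false) (ht.at _) s t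
    rwa [List.length_replicate] at this
  refine ⟨⟨?_, ?_⟩, orb_length hf, ?_⟩
  · intro x y h
    have hl : x.length = y.length := by
      have := congrArg List.length h
      rwa [orb_length hf, orb_length hf] at this
    unfold orb at h
    rw [← hl, hzero] at h
    apply valB_inj hl
    exact Nat.ModEq.eq_of_lt_of_lt h (valB_lt x) (hl ▸ valB_lt y)
  · intro y
    obtain ⟨t, h⟩ := ht (List.replicate y.length false) y (by simp)
    refine ⟨tb y.length t, ?_⟩
    have h1 : orb f (tb y.length t) = f^[t] (List.replicate y.length false) := by
      unfold orb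
      rw [tb_length, hzero, valB_tb]
      exact Nat.mod_modEq _ _
    rw [h1, h]
  · intro x y
    have h1 : (orb f (x ++ y)).take x.length = orb f x := by
      unfold orb
      rw [(hf.iter _).take, List.length_append, List.take_replicate]
      rw [min_eq_left (by omega), hzero, valB_append]
      unfold Nat.ModEq
      simp
    rw [← h1]
    exact List.take_prefix _ _

theorem orb_odometer (x : List Bool) : orb f (odometer x) = f (orb f x) := by
  unfold orb
  rw [← Function.iterate_succ_apply' f, odometer_length]
  have := iter_eq_iff hf (List.replicate x.length false) (ht.at _) (valB (odometer x))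
    (valB x).succ
  rw [List.length_replicate] at this
  rw [this, ← Int.natCast_modEq_iff]
  push_cast
  exact valB_odometer x

end

end Pool.Agent.V7H78.TR2
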