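import Pool.Agent.V7H78.TR2.Block

/-!
# The automorphism
-/

set_option autoImplicit false

namespace Pool.Agent.V7H78.TR2

open Pool.Agent.NPC Pool.Agent.H623R2.PS Function

section

variable (M : ℕ → ℕ) (qs : List Bool → List Bool) (φ : List Bool → List Bool → Bool)

/-- the number of bits of the clock of block `k` -/
def cc (k : ℕ) : ℕ := 3 * M k + k + 4

/-- the start of block `k` -/
def LL (k : ℕ) : ℕ := (k + 1) * (5 * M k + 2 * k + 5)

/-- the part of the portrait of block `k` which comes from the program -/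
def pr (k : ℕ) (v : List Bool) : Bool :=
  decide (cc M k ≤ v.length) && (decide (tm (M k) (cc M k) (valB (v.take (cc M k))) < 8 ^ M k) &&
    gz k (M k) qs φ (tm (M k) (cc M k) (valB (v.take (cc M k)))) (v.drop (cc M k)))

/-- the portrait -/
def gG (u : List Bool) : Bool :=
  u.all id ^^ (List.range (u.length + 1)).any fun k =>
    (decide (LL M k ≤ u.length) && decide (u.length < LL M (k + 1))) &&
      ((u.take (LL M k)).all id && pr M qs φ k (u.drop (LL M k)))

/-- the automorphism -/
def FG : List Bool → List Bool := auto (gG M qs φ)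

variable {M qs φ} (hM : Monotone M) (hq : ∀ w, (qs w).length = M w.length)

theorem gb_eq (k : ℕ) (v : List Bool) :
    gb k (M k) qs φ (cc M k) v = (v.all id ^^ pr M qs φ k v) := rfl

theorem k_lt_LL (k : ℕ) : k < LL M k := by
  unfold LL
  nlinarith [Nat.zero_le (M k), Nat.zero_le (k * M k)]

include hM in
theorem LL_succ (k : ℕ) : LL M k + (5 * M k + 2 * k + 7) ≤ LL M (k + 1) := by
  unfold LL
  have h1 : M k ≤ M (k + 1) := hM (Nat.le_succ k)
  have h2 : (k + 1) * (5 * M k + 2 * k + 5) + (5 * M k + 2 * k + 7) ≤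
      (k + 1 + 1) * (5 * M (k + 1) + 2 * (k + 1) + 5) := by
    calc (k + 1) * (5 * M k + 2 * k + 5) + (5 * M k + 2 * k + 7)
        ≤ (k + 1 + 1) * (5 * M k + 2 * (k + 1) + 5) := by nlinarith
      _ ≤ _ := Nat.mul_le_mul_left _ (by omega)
  exact h2

include hM in
theorem LL_strictMono : StrictMono (LL M) :=
  strictMono_nat_of_lt_succ fun k => by
    have := LL_succ hM k
    omega

/-- the number of registers of block `k` -/
def nn (M : ℕ → ℕ) (k : ℕ) : ℕ := LL M (k + 1) - LL M k - cc M k - k

include hM in
theorem nn_gt (k : ℕ) : 2 * M k < nn M k := by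
  have := LL_succ hM k
  unfold nn cc
  omega

include hM in
theorem LL_eq (k : ℕ) : LL M (k + 1) = LL M k + (cc M k + (k + nn M k)) := by
  have := LL_succ hM k
  unfold nn cc
  omega

theorem FG_treeAut : TreeAut (FG M qs φ) := auto_treeAut _

include hM in
theorem gG_append {k : ℕ} {x u : List Bool} (hx : x.length = LL M k)
    (hu : x.length + u.length < LL M (k + 1)) :
    gG M qs φ (x ++ u) = (x.all id && gb k (M k) qs φ (cc M k) u) := by
  have hmono := LL_strictMono hM
  unfold gG
  rw [gb_eq, List.all_append]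
  have h : ((List.range ((x ++ u).length + 1)).any fun k' =>
      (decide (LL M k' ≤ (x ++ u).length) && decide ((x ++ u).length < LL M (k' + 1))) &&
      (((x ++ u).take (LL M k')).all id && pr M qs φ k' ((x ++ u).drop (LL M k')))) =
      (x.all id && pr M qs φ k u) := by
    have key : ∀ k', ((decide (LL M k' ≤ (x ++ u).length) &&
        decide ((x ++ u).length < LL M (k' + 1))) = true) → k' = k := by
      intro k' h
      simp only [Bool.and_eq_true, decide_eq_true_eq, List.length_append] at h
      by_contra hne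
      rcases lt_or_gt_of_ne hne with h1 | h1
      · have := hmono.monotone (show k' + 1 ≤ k from h1)
        omega
      · have := hmono.monotone (show k + 1 ≤ k' from h1)
        omega
    rw [Bool.eq_iff_iff, List.any_eq_true]
    constructor
    · rintro ⟨k', _, h1⟩
      rw [Bool.and_eq_true] at h1
      obtain ⟨h1, h2⟩ := h1
      have hk := key k' h1
      subst hk
      rw [← hx, List.take_left' rfl, List.drop_left' rfl] at h2
      exact h2
    · intro h1
      refine ⟨k, ?_, ?_⟩
      · rw [List.mem_range, List.length_append]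
        have := k_lt_LL (M := M) k
        omega
      · rw [← hx, List.take_left' rfl, List.drop_left' rfl, h1, List.length_append]
        simp only [Bool.and_true, Bool.and_eq_true, decide_eq_true_eq]
        rw [hx] at hu ⊢
        omega
  rw [h]
  cases x.all id <;> simp

include hM in
theorem FG_append {k : ℕ} {x b : List Bool} (hx : x.length = LL M k)
    (hb : b.length = cc M k + (k + nn M k)) :
    FG M qs φ (x ++ b) = FG M qs φ x ++
      (if x.all id then FB k (M k) qs φ (cc M k) b else b) := by
  have hL := LL_eq hM k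
  unfold FG
  rw [auto_append]
  congr 1
  split_ifs with h
  · unfold FB
    apply auto_congr
    intro i hi
    rw [gG_append hM hx (by rw [List.length_take]; omega), h, Bool.true_and]
  · conv_rhs => rw [← auto_false b]
    apply auto_congr
    intro i hi
    rw [gG_append hM hx (by rw [List.length_take]; omega)]
    simp [h]

include hM in
theorem gG_small {u : List Bool} (hu : u.length < LL M 0) : gG M qs φ u = u.all id := by
  unfold gG
  have h : ((List.range (u.length + 1)).any fun k' =>
      (decide (LL M k' ≤ u.length) && decide (u.length < LL M (k' + 1))) &&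
      ((u.take (LL M k')).all id && pr M qs φ k' (u.drop (LL M k')))) = false := by
    rw [List.any_eq_false]
    intro k' _ h
    simp only [Bool.and_eq_true, decide_eq_true_eq] at h
    have := (LL_strictMono hM).monotone (Nat.zero_le k')
    omega
  rw [h]
  simp

include hM in
theorem FG_small {x : List Bool} (hx : x.length ≤ LL M 0) : FG M qs φ x = odometer x := by
  rw [odometer_eq]
  unfold FG
  apply auto_congr
  intro i hi
  exact gG_small hM (by rw [List.length_take]; omega)

include hM in
theorem FG_iter_small {x : List Bool} (hx : x.length ≤ LL M 0) (t : ℕ) :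
    (FG M qs φ)^[t] x = odometer^[t] x := by
  induction t with
  | zero => rfl
  | succ t ih =>
    rw [Function.iterate_succ_apply', ih, FG_small hM (by rw [odometer_iter_length]; exact hx),
      ← Function.iterate_succ_apply' odometer]

theorem hc16 (k : ℕ) : 2 ^ cc M k = 8 ^ M k * (8 * 2 ^ (k + 1)) := by
  unfold cc
  rw [pow_add, pow_add, pow_mul, pow_succ]
  norm_num
  ring

theorem hc8 (k : ℕ) : 4 * 8 ^ M k ≤ 2 ^ cc M k := by
  rw [hc16]
  have : 1 ≤ 2 ^ (k + 1) := Nat.one_le_two_pow
  calc 4 * 8 ^ M k = 8 ^ M k * (4 * 1) := by ring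
    _ ≤ 8 ^ M k * (8 * 2 ^ (k + 1)) := Nat.mul_le_mul_left _ (by omega)

/-- the state of all ones -/
theorem tb_last (n : ℕ) : tb n (2 ^ n - 1) = List.replicate n true := by
  have hpos : 0 < 2 ^ n := by positivity
  apply valB_inj (by simp)
  rw [valB_tb, Nat.mod_eq_of_lt (by omega)]
  have h : (List.replicate n true).all id = true := by simp
  have := (all_iff_valB _).1 h
  rw [List.length_replicate] at this
  omega

theorem odometer_ones (n : ℕ) : odometer (List.replicate n true) = List.replicate n false := by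
  rw [← tb_last, odometer_tb]
  have hpos : 0 < 2 ^ n := by positivity
  rw [Nat.sub_add_cancel hpos, tb_period, tb_zero]

include hM in
theorem FG_ones (k : ℕ) : FG M qs φ (List.replicate (LL M k) true) =
    List.replicate (LL M k) false := by
  induction k with
  | zero => rw [FG_small hM (by simp), odometer_ones]
  | succ k ih =>
    rw [LL_eq hM k]
    rw [List.replicate_add, FG_append (k := k) hM (by simp) (by simp), ih, if_pos (by simp),
      List.replicate_add (n := k + nn M k), FB_append (by simp) (hc8 k), if_pos (by simp),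
      odometer_ones, odometer_ones, ← List.replicate_add, ← List.replicate_add]

section step

variable {k : ℕ} (ht : TransAt (FG M qs φ) (LL M k))

include hM ht

theorem iter_last : (FG M qs φ)^[2 ^ LL M k - 1] (List.replicate (LL M k) false) =
    List.replicate (LL M k) true := by
  have hpos : 0 < 2 ^ LL M k := by positivity
  apply (FG_treeAut (M := M) (qs := qs) (φ := φ)).bij.1
  have e : (2 ^ LL M k - 1).succ = 2 ^ LL M k := by omega
  rw [FG_ones hM, ← Function.iterate_succ_apply' (FG M qs φ), e]
  have := iter_two_pow (FG_treeAut (M := M) (qs := qs) (φ := φ))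
    (List.replicate (LL M k) false) (by rw [List.length_replicate]; exact ht)
  rwa [List.length_replicate] at this

theorem iter_all {t : ℕ} (h : t + 1 < 2 ^ LL M k) :
    ((FG M qs φ)^[t] (List.replicate (LL M k) false)).all id = false := by
  by_contra hcon
  rw [Bool.not_eq_false] at hcon
  have h1 : (FG M qs φ)^[t] (List.replicate (LL M k) false) = List.replicate (LL M k) true := by
    rw [List.eq_replicate_iff]
    refine ⟨by rw [iter_len FG_treeAut]; simp, ?_⟩
    simpa using hcon
  rw [← iter_last hM ht] at h1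
  rw [iter_eq_iff (FG_treeAut (M := M) (qs := qs) (φ := φ)) _
    (by rw [List.length_replicate]; exact ht), List.length_replicate] at h1
  have := Nat.ModEq.eq_of_lt_of_lt h1 (by omega) (by omega)
  omega

variable {b : List Bool} (hb : b.length = cc M k + (k + nn M k))
include hb

theorem iter_low {t : ℕ} (h : t < 2 ^ LL M k) :
    (FG M qs φ)^[t] (List.replicate (LL M k) false ++ b) =
      (FG M qs φ)^[t] (List.replicate (LL M k) false) ++ b := by
  induction t with
  | zero => rfl
  | succ t ih =>
    rw [Function.iterate_succ_apply', ih (by omega), FG_append hM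
      (by rw [iter_len FG_treeAut]; simp) hb, iter_all hM ht h,
      Function.iterate_succ_apply' (FG M qs φ) t (List.replicate (LL M k) false)]
    simp

theorem iter_cycle :
    (FG M qs φ)^[2 ^ LL M k] (List.replicate (LL M k) false ++ b) =
      List.replicate (LL M k) false ++ FB k (M k) qs φ (cc M k) b := by
  have hpos : 0 < 2 ^ LL M k := by positivity
  rw [show 2 ^ LL M k = (2 ^ LL M k - 1) + 1 by omega, Function.iterate_succ_apply',
    iter_low hM ht hb (by omega), iter_last hM ht, FG_append hM (by simp) hb, FG_ones hM,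
    if_pos (by simp)]

omit hb in
theorem iter_cycles (q : ℕ) : ∀ {b : List Bool}, b.length = cc M k + (k + nn M k) →
    (FG M qs φ)^[2 ^ LL M k * q] (List.replicate (LL M k) false ++ b) =
      List.replicate (LL M k) false ++ (FB k (M k) qs φ (cc M k))^[q] b := by
  induction q with
  | zero => intro b _; rfl
  | succ q ih =>
    intro b hb
    rw [Nat.mul_succ, Function.iterate_add_apply, iter_cycle hM ht hb,
      ih (by unfold FB; rw [auto_length]; exact hb), Function.iterate_succ_apply]

theorem iter_main (q r : ℕ) (hr : r < 2 ^ LL M k) :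
    (FG M qs φ)^[2 ^ LL M k * q + r] (List.replicate (LL M k) false ++ b) =
      (FG M qs φ)^[r] (List.replicate (LL M k) false) ++ (FB k (M k) qs φ (cc M k))^[q] b := by
  rw [add_comm, Function.iterate_add_apply, iter_cycles hM ht q hb, iter_low hM ht _ hr]
  have : TreeAut (FB k (M k) qs φ (cc M k)) := auto_treeAut _
  rw [iter_len this]
  exact hb

end step

include hM hq in
theorem transAt_LL (k : ℕ) : TransAt (FG M qs φ) (LL M k) := by
  induction k with
  | zero =>
    intro x y hx hy
    obtain ⟨t, ht⟩ := odometer_trans x y (hx.trans hy.symm)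
    exact ⟨t, by rw [FG_iter_small hM (by omega), ht]⟩
  | succ k ih =>
    have hL := LL_eq hM k
    refine transAt_of_zero FG_treeAut ?_
    intro y hy
    obtain ⟨x, b, rfl, hx⟩ : ∃ x b, y = x ++ b ∧ x.length = LL M k :=
      ⟨y.take (LL M k), y.drop (LL M k), (List.take_append_drop _ _).symm, by
        rw [List.length_take]; omega⟩
    have hb : b.length = cc M k + (k + nn M k) := by
      rw [List.length_append] at hy; omega
    obtain ⟨t0, ht0⟩ := ih (List.replicate (LL M k) false) x (by simp) hx
    -- reduce the time modulo the period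
    obtain ⟨t, ht, htr⟩ : ∃ t, (FG M qs φ)^[t] (List.replicate (LL M k) false) = x ∧
        t < 2 ^ LL M k := by
      refine ⟨t0 % 2 ^ LL M k, ?_, Nat.mod_lt _ (by positivity)⟩
      rw [← ht0]
      rw [iter_eq_iff (FG_treeAut (M := M) (qs := qs) (φ := φ)) _
        (by rw [List.length_replicate]; exact ih), List.length_replicate]
      exact Nat.mod_modEq _ _
    obtain ⟨s, hs⟩ := FB_trans (k := k) (M := M k) (qs := qs) (φ := φ) (n := nn M k)
      (c := cc M k) (fun w hw => by rw [hq, hw]) (nn_gt hM k) (hc8 k) b hb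
    refine ⟨2 ^ LL M k * s + t, ?_⟩
    rw [hL, List.replicate_add, iter_main hM ih (by simp) s t htr, ht]
    rw [← hb, hs]

include hM hq in
theorem FG_trans : LevelTransitive (FG M qs φ) := by
  intro x y hxy
  have h1 := transAt_LL (qs := qs) (φ := φ) hM hq x.length
  exact (h1.mono FG_treeAut (k_lt_LL _).le) x y rfl hxy.symm

/-! ### The value of a root -/

/-- the string of length `n` with value `v` -/
def toB (n v : ℕ) : List Bool := (v.bits ++ List.replicate n false).take n

@[simp] theorem toB_length (n v : ℕ) : (toB n v).length = n := by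
  unfold toB
  rw [List.length_take]
  simp

theorem valB_toB (n v : ℕ) : valB (toB n v) = v % 2 ^ n := by
  unfold toB
  rw [valB_take_mod, valB_append, valB_bits, valB_zeros]
  simp

/-- the starting point -/
def start (M : ℕ → ℕ) (m : ℕ) (w : List Bool) : List Bool :=
  List.replicate (LL M w.length + cc M w.length) false ++
    toB (w.length + nn M w.length) (valB w + 2 ^ (w.length + nn M w.length) -
      sinv m (LL M (w.length + 1)) / 2 ^ (LL M w.length + cc M w.length))

omit M qs φ in
/-- the clock is in the right range -/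
theorem clock_range {m L c N A : ℕ} (hm : Odd m) (hm2 : 2 ≤ m) (hA : 8 * m * A ≤ 2 ^ c)
    (hAp : 0 < A) (hN : L + c ≤ N) :
    A ≤ sinv m N / 2 ^ L % 2 ^ c ∧ sinv m N / 2 ^ L % 2 ^ c ≤ 2 ^ c - 2 * A := by
  set s' := sinv m N % 2 ^ (L + c) with hs'
  have hτ : sinv m N / 2 ^ L % 2 ^ c = s' / 2 ^ L := by
    rw [hs', pow_add, Nat.mod_mul_right_div_self]
  rw [hτ]
  have hX : 0 < 2 ^ L := by positivity
  have hP : 0 < 2 ^ c := by positivity
  have hQ : 2 ^ (L + c) = 2 ^ L * 2 ^ c := pow_add _ _ _
  have hAm : 8 * 2 * A ≤ 8 * m * A := Nat.mul_le_mul_right _ (Nat.mul_le_mul_left _ hm2)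
  have h1 : m * s' ≡ 1 [MOD 2 ^ (L + c)] := by
    have h2 : m * sinv m N ≡ 1 [MOD 2 ^ (L + c)] :=
      (sinv_modEq hm N).of_dvd (pow_dvd_pow 2 hN)
    exact ((Nat.mod_modEq _ _).mul_left m).trans h2
  have hlt : s' < 2 ^ (L + c) := Nat.mod_lt _ (by positivity)
  have hs0 : 0 < s' := by
    by_contra hcon
    have h0 : s' = 0 := by omega
    rw [h0, mul_zero] at h1
    have h2 : 1 < 2 ^ (L + c) := by
      rw [hQ]
      calc 1 < 2 ^ c := by omega
        _ ≤ 2 ^ L * 2 ^ c := Nat.le_mul_of_pos_left _ hX
    have := Nat.ModEq.eq_of_lt_of_lt h1 (by omega) h2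
    omega
  have hms : 2 ≤ m * s' := le_trans hm2 (Nat.le_mul_of_pos_right _ hs0)
  obtain ⟨j, hj⟩ : 2 ^ (L + c) ∣ m * s' - 1 := (Nat.modEq_iff_dvd' (by omega)).1 h1.symm
  have hj1 : 1 ≤ j := by
    by_contra hcon
    have : j = 0 := by omega
    rw [this, mul_zero] at hj
    omega
  have hj2 : j + 1 ≤ m := by
    by_contra hcon
    have h2 : m ≤ j := by omega
    have h3 : m * s' < m * 2 ^ (L + c) := Nat.mul_lt_mul_of_pos_left hlt (by omega)
    have h4 : 2 ^ (L + c) * m ≤ 2 ^ (L + c) * j := Nat.mul_le_mul_left _ h2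
    have h5 : m * 2 ^ (L + c) = 2 ^ (L + c) * m := mul_comm _ _
    omega
  have hlow : 2 ^ L * 2 ^ c + 1 ≤ m * s' := by
    have h2 : 2 ^ (L + c) * 1 ≤ 2 ^ (L + c) * j := Nat.mul_le_mul_left _ hj1
    rw [← hQ]
    omega
  have hupp : m * s' + 2 ^ L * 2 ^ c ≤ m * (2 ^ L * 2 ^ c) + 1 := by
    have h2 : 2 ^ (L + c) * (j + 1) ≤ 2 ^ (L + c) * m := Nat.mul_le_mul_left _ hj2
    rw [← hQ, mul_comm m (2 ^ (L + c))]
    rw [mul_add, mul_one] at h2
    omega
  have hdm := Nat.div_add_mod s' (2 ^ L)
  have hmod := Nat.mod_lt s' hX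
  set τ := s' / 2 ^ L
  constructor
  · by_contra hcon
    have h2 : τ + 1 ≤ A := by omega
    have h3 : s' < 2 ^ L * (τ + 1) := by rw [mul_add, mul_one]; omega
    have h4 : 2 ^ L * (τ + 1) ≤ 2 ^ L * A := Nat.mul_le_mul_left _ h2
    have h5 : m * s' ≤ m * (2 ^ L * A) := Nat.mul_le_mul_left _ (by omega)
    have h6 : m * (2 ^ L * A) = 2 ^ L * (m * A) := by ring
    have h7 : m * A ≤ 2 ^ c := by nlinarith
    have h8 : 2 ^ L * (m * A) ≤ 2 ^ L * 2 ^ c := Nat.mul_le_mul_left _ h7
    omega
  · by_contra hcon
    obtain ⟨P', hP'⟩ : ∃ P', 2 ^ c = 2 * A + P' := ⟨2 ^ c - 2 * A, by omega⟩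
    have h2 : P' + 1 ≤ τ := by omega
    have h3 : 2 ^ L * (P' + 1) ≤ s' := by
      have : 2 ^ L * (P' + 1) ≤ 2 ^ L * τ := Nat.mul_le_mul_left _ h2
      omega
    have h4 : m * (2 ^ L * (P' + 1)) ≤ m * s' := Nat.mul_le_mul_left _ h3
    rw [hP'] at hupp hA
    have h5 : m * (2 ^ L * (P' + 1)) + 2 ^ L * (2 * A + P') ≤ m * (2 ^ L * (2 * A + P')) + 1 := by
      omega
    have h6 : 2 ^ L * (m + (2 * A + P')) ≤ 2 ^ L * (2 * (m * A)) + 1 := by
      have e1 : m * (2 ^ L * (P' + 1)) + 2 ^ L * (2 * A + P') =
        2 ^ L * (m * P') + 2 ^ L * (m + (2 * A + P')) := by ring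
      have e2 : m * (2 ^ L * (2 * A + P')) = 2 ^ L * (m * P') + 2 ^ L * (2 * (m * A)) := by ring
      rw [e1, e2] at h5
      omega
    have h7 : 8 * m * A = 8 * (m * A) := by ring
    rw [h7] at hA
    have h8 : 2 * (m * A) + 2 ≤ m + (2 * A + P') := by omega
    have h9 : 2 ^ L * (2 * (m * A) + 2) ≤ 2 ^ L * (m + (2 * A + P')) := Nat.mul_le_mul_left _ h8
    rw [mul_add] at h9
    omega

include hM hq in
theorem root_value {g : List Bool → List Bool} (hg : TreeAut g) {m : ℕ} (hm : Odd m)
    (hm2 : 2 ≤ m) (h3 : ∀ x, g^[m] x = FG M qs φ x) (w : List Bool) (hw : m ≤ 2 ^ (w.length + 1)) :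
    (g (start M m w)).getD (LL M w.length + (cc M w.length + (w.length + 2 * M w.length)))
      false = evq (qs w) (φ w) := by
  set k := w.length with hk
  have hLe := LL_eq hM k
  have hn := nn_gt hM k
  have hFG := FG_treeAut (M := M) (qs := qs) (φ := φ)
  have htr := FG_trans (qs := qs) (φ := φ) hM hq
  set s := sinv m (LL M (k + 1)) with hs
  set y := toB (k + nn M k) (valB w + 2 ^ (k + nn M k) - s / 2 ^ (LL M k + cc M k)) with hy
  have hyl : y.length = k + nn M k := by rw [hy, toB_length]
  have hstart : start M m w = List.replicate (LL M k) false ++ (tb (cc M k) 0 ++ y) := by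
    unfold start
    rw [← hk, List.replicate_add, List.append_assoc, tb_zero]
  have hsl : (start M m w).length = LL M (k + 1) := by
    rw [hstart]; simp [hyl]; omega
  rw [root_power hFG htr hg hm h3 _ s (by rw [hsl]; exact sinv_modEq hm _), hstart]
  have hsplit : s = 2 ^ LL M k * (s / 2 ^ LL M k) + s % 2 ^ LL M k := (Nat.div_add_mod _ _).symm
  rw [hsplit, iter_main hM (htr.at _) (by simp [hyl]) _ _ (Nat.mod_lt _ (by positivity))]
  have hrange := clock_range (m := m) (L := LL M k) (c := cc M k) (N := LL M (k + 1))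
    (A := 8 ^ M k) hm hm2 (by
      rw [hc16]
      calc 8 * m * 8 ^ M k = 8 ^ M k * (8 * m) := by ring
        _ ≤ 8 ^ M k * (8 * 2 ^ (k + 1)) := Nat.mul_le_mul_left _ (by omega)) (by positivity)
    (by omega)
  rw [← hs] at hrange
  have hsplit2 : s / 2 ^ LL M k = s / 2 ^ LL M k % 2 ^ cc M k +
      2 ^ cc M k * (s / 2 ^ (LL M k + cc M k)) := by
    rw [pow_add, ← Nat.div_div_eq_div_mul]
    exact (Nat.mod_add_div _ _).symm
  set τ := s / 2 ^ LL M k % 2 ^ cc M k with hτ
  set z := s / 2 ^ (LL M k + cc M k) with hz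
  have hq' : ∀ w' : List Bool, w'.length = k → (qs w').length = M k := fun w' hw' => by
    rw [hq, hw']
  rw [hsplit2, Function.iterate_add_apply (FB k (M k) qs φ (cc M k)),
    FB_cycles hq' hn (hc8 k) _ hyl]
  -- the word
  have hzle : z ≤ 2 ^ (k + nn M k) := by
    rw [hz]
    apply Nat.div_le_of_le_mul
    rw [← pow_add]
    have h1 := sinv_le hm (LL M (k + 1))
    rw [← hs] at h1
    have h2 : LL M k + cc M k + (k + nn M k) = LL M (k + 1) := by omega
    rw [h2]
    exact h1
  have hzz : odometer^[z] y = mk w (nn M k) (fun _ => false) := by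
    have hmk : mk w (nn M k) (fun _ => false) = w ++ List.replicate (nn M k) false := by
      unfold mk
      simp
    rw [hmk]
    apply valB_modEq_inj (by rw [odometer_iter_length, hyl]; simp [hk])
    rw [odometer_iter_length]
    have h1 := valB_odometer_iter z y
    refine h1.trans ?_
    have h2 : valB y + z ≡ valB w [MOD 2 ^ y.length] := by
      have h4 : valB y ≡ valB w + 2 ^ (k + nn M k) - z [MOD 2 ^ y.length] := by
        rw [hyl, hy, valB_toB]
        exact Nat.mod_modEq _ _
      have h5 := h4.add_right z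
      rw [Nat.sub_add_cancel (by omega), hyl] at h5
      rw [hyl]
      refine h5.trans ?_
      unfold Nat.ModEq
      simp
    have h6 : valB (w ++ List.replicate (nn M k) false) = valB w := by
      rw [valB_append, valB_zeros]; simp
    rw [h6]
    have h7 := (Int.natCast_modEq_iff).2 h2
    push_cast at h7
    exact h7
  rw [hzz, FB_iter (hc8 k) _ _ (Nat.mod_lt _ (by positivity)),
    Zt_first hq' hn (hc8 k) hk.symm _ _ hrange.2, min_eq_right hrange.1]
  have hfull : runA (qs w) (φ w) (2 * M k) (8 ^ M k) (fun _ => false) =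
      fullA (qs w) (φ w) (2 * M k) (fun _ => false) := by
    unfold fullA
    rw [hq' w hk.symm]
  rw [hfull, full_clean _ _ _ (by rw [hq' w hk.symm]) _ (fun _ _ => rfl)]
  -- reading the bit
  rw [List.getD_eq_getElem?_getD, List.getElem?_append_right (by
    rw [iter_len hFG]; simp), iter_len hFG, List.length_replicate, Nat.add_sub_cancel_left,
    List.getElem?_append_right (by simp), tb_length, Nat.add_sub_cancel_left,
    ← List.getD_eq_getElem?_getD, hk, mk_getD _ _ _ (by rw [← hk]; exact hn)]
  unfold flipAt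
  simp

end

end Pool.Agent.V7H78.TR2
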