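import Pool.Agent.V7H78.TR2.Space

/-!
# The main theorem
-/

set_option autoImplicit false

namespace Pool.Agent.V7H78.TR2

open Pool.Agent.NPC Pool.Agent.H623R2.PS Function
open Pool.Agent.H656R2.AK (QF evc qbf_hard)

section

variable {inst : List Bool → QF} {μ : Polynomial ℕ}

/-- Every root is hard. -/
theorem root_hard (h : ∀ w, (inst w).1.length ≤ MM μ w.length)
    {g : List Bool → List Bool} (hg : TreeAut g) {m : ℕ} (hm : Odd m)
    (hm2 : 2 ≤ m) (h3 : ∀ x, g^[m] x = FG (MM μ) (qsI inst μ) (phI inst) x)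
    {L : Set (List Bool)}
    (hL : ∀ x, x ∈ L ↔ evq (inst x).1 (fun v => evc v (inst x).2) = true) :
    Reduces L (lang (BitOf g)) := by
  classical
  have hval : ∀ w : List Bool, m ≤ 2 ^ (w.length + 1) →
      (g (start (MM μ) m w)).getD (LL (MM μ) w.length +
      (cc (MM μ) w.length + (w.length + 2 * MM μ w.length))) false =
      evq (inst w).1 (fun v => evc v (inst w).2) := by
    intro w hw
    rw [root_value (MM_mono μ) (qsI_length inst μ h) hg hm hm2 h3 w hw, evq_qsI]
  -- the short words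
  have hfin : {w : List Bool | w.length < m ∧ w ∈ L}.Finite :=
    (List.finite_length_lt Bool m).subset fun w hw => hw.1
  obtain ⟨S, hS⟩ : ∃ S : List (List Bool), ∀ w, w ∈ S ↔ (w.length < m ∧ w ∈ L) :=
    ⟨hfin.toFinset.toList, fun w => by simp⟩
  obtain ⟨yes, hyes⟩ := hg.bij.2 [true]
  obtain ⟨no, hno⟩ := hg.bij.2 [false]
  refine ⟨fun w => bits (if w.length < m then (if w ∈ S then (yes, 0) else (no, 0)) else
      (start (MM μ) m w, LL (MM μ) w.length +
        (cc (MM μ) w.length + (w.length + 2 * MM μ w.length))) : List Bool × ℕ), ?_, ?_⟩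
  · apply polyTime_bits
    have h1 := poly_start (μ := μ) m
    have hk : UPoly (fun w : List Bool => w.length) := UPoly.length NPC.Poly.id
    have hkp := hk.toPoly
    have h2 := (upoly_MM (μ := μ) hk).toPoly
    have h4 := (upoly_LL (μ := μ) hk).toPoly
    have h5 := (upoly_cc (μ := μ) hk).toPoly
    have h6 : NPC.Poly (fun w : List Bool => decide (w ∈ S)) :=
      NPC.Poly.dec_mem NPC.Poly.id (NPC.Poly.const S)
    refine NPC.Poly.ite (p := fun w : List Bool => w.length < m) (by fun_prop) ?_ (by fun_prop)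
    exact NPC.Poly.ite (p := fun w : List Bool => w ∈ S) h6 (NPC.Poly.const _) (NPC.Poly.const _)
  · intro x
    rw [bits_mem_lang]
    by_cases hx : x.length < m
    · rw [if_pos hx]
      by_cases hxS : x ∈ S
      · rw [if_pos hxS]
        have := (hS x).1 hxS
        simp [BitOf, hyes, this.2]
      · rw [if_neg hxS]
        have : x ∉ L := fun h => hxS ((hS x).2 ⟨hx, h⟩)
        simp [BitOf, hno, this]
    · rw [if_neg hx]
      unfold BitOf
      have h8 : m < 2 ^ m := Nat.lt_two_pow_self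
      have h9 : 2 ^ m ≤ 2 ^ (x.length + 1) := Nat.pow_le_pow_right (by norm_num) (by omega)
      rw [hval x (by omega), hL]

end

/-- Uniqueness of roots. -/
theorem root_unique {f : List Bool → List Bool} (hf : TreeAut f) (ht : LevelTransitive f)
    {m : ℕ} (hm : Odd m) {g : List Bool → List Bool} (hg : TreeAut g)
    (h : ∀ x, g^[m] x = f x) : g = rt f m := by
  funext x
  exact root_power hf ht hg hm h x _ (sinv_modEq hm _)

/-- An automorphism is computable in polynomial time if its bits are. -/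
theorem pAut_of_bits {g : List Bool → List Bool} (hg : TreeAut g) (h : InP (lang (BitOf g))) :
    PAut g := by
  refine PAut.of hg ?_
  obtain ⟨V, hV, hV'⟩ := h
  have hVp : NPC.Poly V := NPC.PIso.poly_iff.2 hV
  have hd : NPC.Poly (fun a : List Bool × ℕ => decide (V (bits a) = [true])) := by
    have h1 : NPC.Poly (fun a : List Bool × ℕ => V (bits a)) :=
      hVp.comp (f := fun a : List Bool × ℕ => bits a) poly_bits
    exact NPC.Poly.decide_eq h1 (NPC.Poly.const _)
  refine (NPC.Poly.map (l := fun x : List Bool => List.range x.length)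
    (F := fun x i => decide (V (bits ((x, i) : List Bool × ℕ)) = [true])) (by fun_prop)
      hd).congr ?_
  intro x
  apply ext_getD (by rw [hg.len]; simp)
  intro i hi
  rw [List.length_map, List.length_range] at hi
  rw [List.getD_eq_getElem _ _ (by simpa using hi)]
  simp only [List.getElem_map, List.getElem_range]
  rw [Bool.eq_iff_iff, decide_eq_true_iff, ← hV', bits_mem_lang]
  rfl

/-- The theorem. -/
theorem thm :
    (∀ f g, PAut f → LevelTransitive f → PAut g → LevelTransitive g →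
      ∃ h, TreeAut h ∧ (∀ x, h (f x) = g (h x)) ∧ InPSPACE (lang (BitOf h))) ∧
    (∀ f, PAut f → LevelTransitive f → ∀ m : ℕ, Odd m →
      ∃ g, TreeAut g ∧ (∀ x, g^[m] x = f x) ∧ InPSPACE (lang (BitOf g)) ∧
        ∀ g', TreeAut g' → (∀ x, g'^[m] x = f x) → g' = g) ∧
    ∃ a : List Bool → List Bool, PAut a ∧ LevelTransitive a ∧
      (∀ (m : ℕ) (g : List Bool → List Bool), 2 ≤ m → TreeAut g → (∀ x, g^[m] x = a x) →
        PSPACEComplete (lang (BitOf g))) ∧
      List.TFAE [
        ∀ L : Set (List Bool), InP L ↔ InPSPACE L,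
        ∀ f g, PAut f → LevelTransitive f → PAut g → LevelTransitive g →
          ∃ h, PAut h ∧ ∀ x, h (f x) = g (h x),
        ∀ f, PAut f → LevelTransitive f → ∀ m : ℕ, Odd m → ∃ g, PAut g ∧ ∀ x, g^[m] x = f x,
        ∃ h, PAut h ∧ ∀ x, h (a x) = odometer (h x),
        ∃ (h : List Bool → List Bool) (m : ℕ), PAut h ∧ 2 ≤ m ∧ ∀ x, h (a x) = a^[m] (h x),
        ∃ (g : List Bool → List Bool) (m : ℕ), PAut g ∧ 2 ≤ m ∧ ∀ x, g^[m] x = a x] := by
  refine ⟨?_, ?_, ?_⟩
  · intro f g hf ht hg ht'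
    refine ⟨cj f g, ?_, ?_, inPSPACE_cj hf.1 ht hg.1 hf.poly hg.poly⟩
    · have h1 : cj f g = fun x => orb g (invF (orb f) x) := funext cj_eq
      rw [h1]
      exact (orb_treeAut hg.1 ht').comp (invF_treeAut (orb_treeAut hf.1 ht))
    · intro x
      rw [cj_eq, cj_eq, ← orb_odometer hg.1 ht']
      congr 1
      apply (orb_treeAut hf.1 ht).bij.1
      rw [f_invF (orb_treeAut hf.1 ht), orb_odometer hf.1 ht, f_invF (orb_treeAut hf.1 ht)]
  · intro f hf ht m hm
    exact ⟨rt f m, rt_treeAut hf.1 ht hm, rt_iter hf.1 ht hm, inPSPACE_root hf.1 hf.poly m,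
      fun g' hg' h => root_unique hf.1 ht hm hg' h⟩
  obtain ⟨μ, hμ⟩ := exists_mu
  have hat : LevelTransitive (FG (MM μ) (qsI inst0 μ) (phI inst0)) :=
    FG_trans (MM_mono μ) (qsI_length inst0 μ hμ)
  have hap : PAut (FG (MM μ) (qsI inst0 μ) (phI inst0)) :=
    PAut.of FG_treeAut (poly_FG poly_inst0 hμ)
  refine ⟨FG (MM μ) (qsI inst0 μ) (phI inst0), hap, hat, ?_, ?_⟩
  · intro m g hm hg h
    have hodd := odd_of_root hg hat h
    refine ⟨?_, fun L hL => (L0_hard hL).trans (root_hard (inst := inst0) (μ := μ) hμ hg hodd hm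
      h (L := L0) fun x => Iff.rfl)⟩
    rw [root_unique hap.1 hat hodd hg h]
    exact inPSPACE_root hap.1 hap.poly m
  tfae_have 1 → 2 := by
    intro hP f g hf hft hg hgt
    exact conj_of_collapse (fun L hL => (hP L).2 hL) hf hft hg hgt
  tfae_have 2 → 3 := by
    intro h f hf hft m hm
    exact root_of_conj (h f odometer hf hft pAut_odometer odometer_trans) hm
  tfae_have 2 → 4 := fun h => h _ _ hap hat pAut_odometer odometer_trans
  tfae_have 2 → 5 := by
    intro h
    have h3 : Odd 3 := by decide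
    obtain ⟨k, hk, hk1⟩ := h _ _ hap hat (hap.iter 3) (trans_iter hap.1 hat h3)
    exact ⟨k, 3, hk, by norm_num, hk1⟩
  tfae_have 3 → 6 := by
    intro h
    obtain ⟨g, hg, hg1⟩ := h _ hap hat 3 (by decide)
    exact ⟨g, 3, hg, by norm_num, hg1⟩
  tfae_have 4 → 6 := by
    intro h
    obtain ⟨g, hg, hg1⟩ := root_of_conj h (m := 3) (by decide)
    exact ⟨g, 3, hg, by norm_num, hg1⟩
  tfae_have 5 → 6 := by
    rintro ⟨h, m, hh, hm, h1⟩
    obtain ⟨k, hk, hk1, hk2⟩ := hh.inverse
    refine ⟨fun x => k (FG (MM μ) (qsI inst0 μ) (phI inst0) (h x)), m, hk.comp (hap.comp hh), hm,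
      fun x => ?_⟩
    apply hh.1.bij.1
    rw [semiconj_iter (f := fun x => k (FG (MM μ) (qsI inst0 μ) (phI inst0) (h x)))
      (g := FG (MM μ) (qsI inst0 μ) (phI inst0)) (h := h) (fun x => hk2 _) m x, h1]
  tfae_have 6 → 1 := by
    rintro ⟨g, m, hg, hm, h1⟩ L
    refine ⟨inPSPACE_of_inP, fun hL => ?_⟩
    have hodd := odd_of_root hg.1 hat h1
    exact InP.of_reduces (L0_hard hL) (inP_of_root (inst := inst0) (μ := μ) hμ hg.1 hg.2.1 hodd hm
      h1 (L := L0) fun x => Iff.rfl)
  tfae_finish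

end Pool.Agent.V7H78.TR2
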