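import Pool.Agent.V7H78.TR2.Glob
import Pool.Agent.H671R2.PolyAuto
import Pool.Agent.H623R2.PS.Savitch
import Pool.Agent.H550R2.Iso.Raw

/-!
# Polynomial-time computability, first part
-/

set_option autoImplicit false

namespace Pool.Agent.V7H78.TR2

open Pool.Agent.NPC Pool.Agent.H623R2.PS Function

variable {α β : Type} [TEnc α] [TEnc β]

omit [TEnc β] in
theorem take_eq' : ∀ (l : List β) (i k : ℕ),
    ((l.zipIdx k).filter (fun q => decide (q.2 < i + k))).map Prod.fst = l.take i := by
  intro l
  induction l with
  | nil => intro i k; simp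
  | cons b l ih =>
    intro i k
    cases i with
    | zero =>
      rw [List.take_zero, List.map_eq_nil_iff, List.filter_eq_nil_iff]
      intro q hq
      rw [decide_eq_true_iff]
      have := List.le_snd_of_mem_zipIdx hq
      omega
    | succ i =>
      rw [List.zipIdx_cons, List.filter_cons, if_pos (by simp), List.map_cons, List.take_succ_cons,
        ← ih i (k + 1)]
      congr 3
      funext q
      congr 1
      rw [eq_iff_iff]
      omega

omit [TEnc β] in
theorem drop_eq' : ∀ (l : List β) (i k : ℕ),
    ((l.zipIdx k).filter (fun q => decide (i + k ≤ q.2))).map Prod.fst = l.drop i := by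
  intro l
  induction l with
  | nil => intro i k; simp
  | cons b l ih =>
    intro i k
    cases i with
    | zero =>
      rw [List.drop_zero]
      have h1 : ((b :: l).zipIdx k).filter (fun q => decide (0 + k ≤ q.2)) = (b :: l).zipIdx k := by
        rw [List.filter_eq_self]
        intro q hq
        rw [decide_eq_true_iff]
        have := List.le_snd_of_mem_zipIdx hq
        omega
      rw [h1, List.zipIdx_map_fst]
    | succ i =>
      rw [List.zipIdx_cons, List.filter_cons, if_neg (by simp), List.drop_succ_cons,
        ← ih i (k + 1)]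
      congr 2
      funext q
      congr 1
      rw [eq_iff_iff]
      omega

@[fun_prop]
theorem poly_take {l : α → List β} {n : α → ℕ} (hl : NPC.Poly l) (hn : NPC.Poly n) :
    NPC.Poly (fun a => (l a).take (n a)) := by
  refine (NPC.Poly.map (F := fun _ (q : β × ℕ) => q.1) (NPC.Poly.filter
    (p := fun a (q : β × ℕ) => decide (q.2 < n a)) (NPC.Poly.zipIdx hl)
    (NPC.Poly.decide_lt (NPC.Poly.snd (NPC.Poly.snd NPC.Poly.id))
      (hn.comp (NPC.Poly.fst NPC.Poly.id))))
    (NPC.Poly.fst (NPC.Poly.snd NPC.Poly.id))).congr fun a => ?_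
  have := take_eq' (l a) (n a) 0
  simp only [Nat.add_zero] at this
  exact this

@[fun_prop]
theorem poly_drop {l : α → List β} {n : α → ℕ} (hl : NPC.Poly l) (hn : NPC.Poly n) :
    NPC.Poly (fun a => (l a).drop (n a)) := by
  refine (NPC.Poly.map (F := fun _ (q : β × ℕ) => q.1) (NPC.Poly.filter
    (p := fun a (q : β × ℕ) => decide (n a ≤ q.2)) (NPC.Poly.zipIdx hl)
    (NPC.Poly.decide_le (hn.comp (NPC.Poly.fst NPC.Poly.id))
      (NPC.Poly.snd (NPC.Poly.snd NPC.Poly.id))))
    (NPC.Poly.fst (NPC.Poly.snd NPC.Poly.id))).congr fun a => ?_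
  have := drop_eq' (l a) (n a) 0
  simp only [Nat.add_zero] at this
  exact this

@[fun_prop]
theorem poly_range_length {l : α → List β} (hl : NPC.Poly l) :
    NPC.Poly (fun a => List.range (l a).length) := (UPoly.length hl).range

@[fun_prop]
theorem poly_range_length' {l : α → List β} (hl : NPC.Poly l) :
    NPC.Poly (fun a => List.range ((l a).length + 1)) :=
  ((UPoly.length hl).add (UPoly.const 1)).range

/-- the formula for a portrait automorphism -/
theorem auto_map (g : List Bool → Bool) (x : List Bool) :
    (List.range x.length).map (fun i => (x.getD i false ^^ g (x.take i))) = auto g x := by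
  apply ext_getD (by simp)
  intro i hi
  rw [List.length_map, List.length_range] at hi
  rw [auto_getD g x i hi, List.getD_eq_getElem _ _ (by simpa using hi)]
  simp

theorem poly_auto {g : List Bool → Bool} (hg : NPC.Poly g) : NPC.Poly (auto g) := by
  refine NPC.Poly.congr (f := fun x => (List.range x.length).map
    (fun i => (x.getD i false ^^ g (x.take i)))) ?_ (auto_map g)
  refine NPC.Poly.map (l := fun x : List Bool => List.range x.length)
    (F := fun x i => (x.getD i false ^^ g (x.take i))) (by fun_prop) ?_
  have h : NPC.Poly (fun p : List Bool × ℕ => g (p.1.take p.2)) :=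
    hg.comp (f := fun p : List Bool × ℕ => p.1.take p.2) (by fun_prop)
  fun_prop

theorem poly_pow2 {n : α → ℕ} (hn : UPoly n) : NPC.Poly (fun a => 2 ^ n a) := by
  have h := poly_replicate hn false
  have h1 : NPC.Poly (fun a => valB (List.replicate (n a) false ++ [true])) :=
    NPC.Poly.valBits (by fun_prop)
  refine h1.congr fun a => ?_
  rw [valB_replicate_false]
  simp

theorem poly_pow8 {n : α → ℕ} (hn : UPoly n) : NPC.Poly (fun a => 8 ^ n a) :=
  (poly_pow2 ((UPoly.const 3).mul hn)).congr fun a => by rw [pow_mul]; norm_num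

/-! ### The look-up in closed form -/

/-- digits in base eight -/
def dg (τ j : ℕ) : ℕ := τ / 8 ^ j % 8

/-- the level is active -/
def actv (τ j : ℕ) : Bool :=
  decide (dg τ j = 0) || (decide (dg τ j = 4) || (decide (dg τ j = 1) || decide (dg τ j = 3)))

/-- the value of the variable of the level -/
def yv (τ j : ℕ) : Bool := decide (dg τ j = 1) || decide (dg τ j = 3)

/-- the bit of the event -/
def evb (q : Bool) (j : ℕ) (a : ℕ → Bool) : Bool :=
  bif q then a (2 * j) && a (2 * j + 1) else a (2 * j) || a (2 * j + 1)

/-- the look-up in closed form -/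
def lookC (M : ℕ) (qs : List Bool) (φ : List Bool → Bool) (tgt τ : ℕ) (a : ℕ → Bool) : ℕ × Bool :=
  ((List.range M).reverse.filter (fun j => !actv τ j)).head?.elim
    ((bif decide (M = 0) then tgt else (bif yv τ 0 then 1 else 0)),
      φ ((List.range M).reverse.map (yv τ)))
    fun j => ((bif decide (j + 1 = M) then tgt else 2 * (j + 1) + (bif yv τ (j + 1) then 1 else 0)),
      (decide (dg τ j = 2) && decide (τ % 8 ^ j = 0)) && evb (qs.getD (M - 1 - j) false) j a)

theorem dg_mod {τ M j : ℕ} (h : j < M) : dg (τ % 8 ^ M) j = dg τ j := by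
  unfold dg
  obtain ⟨d, rfl⟩ := Nat.exists_eq_add_of_lt h
  rw [show j + d + 1 = j + (d + 1) by ring, pow_add, Nat.mod_mul_right_div_self, pow_succ,
    Nat.mod_mul_left_mod]

theorem dg_top {τ M : ℕ} (h : τ < 8 ^ (M + 1)) : dg τ M = τ / 8 ^ M := by
  unfold dg
  apply Nat.mod_eq_of_lt
  rw [Nat.div_lt_iff_lt_mul (by positivity), mul_comm, ← pow_succ]
  exact h

theorem mod_mod8 {τ M j : ℕ} (h : j ≤ M) : τ % 8 ^ M % 8 ^ j = τ % 8 ^ j :=
  Nat.mod_mod_of_dvd _ (pow_dvd_pow 8 h)

theorem lookup_eq_lookC (qs : List Bool) (φ : List Bool → Bool) (tgt τ : ℕ) (a : ℕ → Bool)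
    (hτ : τ < 8 ^ qs.length) : lookup qs φ tgt τ a = lookC qs.length qs φ tgt τ a := by
  induction qs generalizing φ tgt τ with
  | nil => simp [lookup, lookC]
  | cons q qs ih =>
    rw [List.length_cons] at hτ ⊢
    set M := qs.length with hM
    have hD := dg_top hτ
    have hr : τ % 8 ^ M < 8 ^ M := Nat.mod_lt _ (by positivity)
    have hact : ∀ j < M, actv (τ % 8 ^ M) j = actv τ j := fun j hj => by
      unfold actv; rw [dg_mod hj]
    have hyv : ∀ j < M, yv (τ % 8 ^ M) j = yv τ j := fun j hj => by
      unfold yv; rw [dg_mod hj]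
    have hfil : (List.range M).reverse.filter (fun j => !actv (τ % 8 ^ M) j) =
        (List.range M).reverse.filter (fun j => !actv τ j) := by
      apply List.filter_congr
      intro j hj
      rw [List.mem_reverse, List.mem_range] at hj
      rw [hact j hj]
    have hmap : (List.range M).reverse.map (yv (τ % 8 ^ M)) = (List.range M).reverse.map (yv τ) := by
      apply List.map_congr_left
      intro j hj
      rw [List.mem_reverse, List.mem_range] at hj
      rw [hyv j hj]
    have key : ∀ b : Bool, actv τ M = true → yv τ M = b →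
        lookC M qs (fun v => φ (b :: v)) (2 * M + (bif b then 1 else 0)) (τ % 8 ^ M) a =
          lookC (M + 1) (q :: qs) φ tgt τ a := by
      intro b h1 h2
      unfold lookC
      rw [hfil, hmap, List.range_succ, List.reverse_append, List.reverse_cons, List.reverse_nil,
        List.nil_append, List.singleton_append, List.filter_cons, if_neg (by simp [h1]),
        List.map_cons, h2]
      rcases hh : ((List.range M).reverse.filter (fun j => !actv τ j)).head? with _ | j
      · simp only [Option.elim_none]
        congr 1
        by_cases h0 : M = 0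
        · rw [h0] at h2 ⊢
          simp [h2]
        · rw [hyv 0 (by omega)]
          simp [h0]
      · simp only [Option.elim_some]
        have hj : j < M := by
          have h3 := List.mem_of_mem_head? hh
          rw [List.mem_filter, List.mem_reverse, List.mem_range] at h3
          exact h3.1
        rw [dg_mod hj, mod_mod8 hj.le]
        congr 1
        · by_cases h0 : j + 1 = M
          · have h4 : j + 1 ≠ M + 1 := by omega
            simp only [h0, decide_true, cond_true]
            rw [h2]
            simp
          · have h4 : j + 1 ≠ M + 1 := by omega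
            rw [hyv (j + 1) (by omega)]
            have h6 : j ≠ M := by omega
            simp [h0, h6]
        · have h5 : M + 1 - 1 - j = (M - 1 - j) + 1 := by omega
          rw [h5, List.getD_cons_succ]
    rw [lookup]
    rw [← hM]
    split_ifs with h1 h2 h3
    · rw [ih _ _ _ hr]
      have e1 : actv τ M = true := by
        unfold actv; rw [hD]; rcases h1 with h | h <;> simp [h]
      have e2 : yv τ M = false := by
        unfold yv; rw [hD]; rcases h1 with h | h <;> simp [h]
      have := key false e1 e2
      simpa using this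
    · rw [ih _ _ _ hr]
      have e1 : actv τ M = true := by
        unfold actv; rw [hD]; rcases h2 with h | h <;> simp [h]
      have e2 : yv τ M = true := by
        unfold yv; rw [hD]; rcases h2 with h | h <;> simp [h]
      have := key true e1 e2
      simpa using this
    · have e1 : actv τ M = false := by
        unfold actv; rw [hD]; rw [h3.1]; rfl
      unfold lookC
      rw [List.range_succ, List.reverse_append, List.reverse_cons, List.reverse_nil,
        List.nil_append, List.singleton_append, List.filter_cons, if_pos (by simp [e1])]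
      simp only [List.head?_cons, Option.elim_some, hD, h3.1, h3.2]
      simp [evb]
    · have e1 : actv τ M = false := by
        unfold actv; rw [hD]
        simp only [Bool.or_eq_false_iff, decide_eq_false_iff_not]
        refine ⟨?_, ?_, ?_, ?_⟩ <;> omega
      unfold lookC
      rw [List.range_succ, List.reverse_append, List.reverse_cons, List.reverse_nil,
        List.nil_append, List.singleton_append, List.filter_cons, if_pos (by simp [e1])]
      simp only [List.head?_cons, Option.elim_some, hD]
      have : (decide (τ / 8 ^ M = 2) && decide (τ % 8 ^ M = 0)) = false := by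
        rw [Bool.eq_false_iff]
        intro h4
        simp only [Bool.and_eq_true, decide_eq_true_eq] at h4
        exact h3 h4
      rw [this]
      simp

theorem poly_dg {M τ j : α → ℕ} (hM : UPoly M) (hτ : NPC.Poly τ) (hj : NPC.Poly j) :
    NPC.Poly (fun a => dg (τ a) (min (j a) (M a))) := by
  unfold dg
  have h : NPC.Poly (fun a => 8 ^ min (j a) (M a)) :=
    poly_pow8 (UPoly.of_le (NPC.Poly.min hj hM.toPoly) hM fun a => min_le_right _ _)
  fun_prop

theorem poly_actv {M τ j : α → ℕ} (hM : UPoly M) (hτ : NPC.Poly τ) (hj : NPC.Poly j) :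
    NPC.Poly (fun a => actv (τ a) (min (j a) (M a))) := by
  unfold actv
  have := poly_dg hM hτ hj
  fun_prop

theorem poly_yv {M τ j : α → ℕ} (hM : UPoly M) (hτ : NPC.Poly τ) (hj : NPC.Poly j) :
    NPC.Poly (fun a => yv (τ a) (min (j a) (M a))) := by
  unfold yv
  have := poly_dg hM hτ hj
  fun_prop

/-- the closed form is computed in polynomial time -/
theorem poly_lookC {M : α → ℕ} (hM : UPoly M) {qs : α → List Bool} (hq : NPC.Poly qs)
    {φ : α → List Bool → Bool} (hφ : NPC.Poly (fun p : α × List Bool => φ p.1 p.2))
    {tgt τ : α → ℕ} (ht : NPC.Poly tgt) (hτ : NPC.Poly τ) {r : α → ℕ → Bool}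
    (hr : NPC.Poly (fun p : α × ℕ => r p.1 p.2)) :
    NPC.Poly (fun a => lookC (M a) (qs a) (φ a) (tgt a) (τ a) (r a)) := by
  have hMp := hM.toPoly
  have hrange := hM.range
  have hfst : NPC.Poly (fun p : α × ℕ => p.1) := NPC.Poly.fst NPC.Poly.id
  have hM' : UPoly (fun p : α × ℕ => M p.1) := UPoly.comp hM hfst
  have hM'p := hM'.toPoly
  have hτ' : NPC.Poly (fun p : α × ℕ => τ p.1) := hτ.comp hfst
  have ht' : NPC.Poly (fun p : α × ℕ => tgt p.1) := ht.comp hfst
  have hq' : NPC.Poly (fun p : α × ℕ => qs p.1) := hq.comp hfst
  have hsnd : NPC.Poly (fun p : α × ℕ => p.2) := NPC.Poly.snd NPC.Poly.id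
  have h8 : NPC.Poly (fun p : α × ℕ => 8 ^ min p.2 (M p.1)) :=
    poly_pow8 (UPoly.of_le (NPC.Poly.min hsnd hM'.toPoly) hM' fun a => min_le_right _ _)
  -- the list of inactive levels
  have h1 : NPC.Poly (fun a => (List.range (M a)).reverse.filter
      (fun j => !actv (τ a) (min j (M a)))) := by
    refine NPC.Poly.filter (l := fun a => (List.range (M a)).reverse)
      (p := fun a j => !actv (τ a) (min j (M a))) (by fun_prop) ?_
    have := poly_actv hM' hτ' hsnd
    fun_prop
  have h2 : NPC.Poly (fun a => (List.range (M a)).reverse.map (fun j => yv (τ a) (min j (M a)))) := by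
    refine NPC.Poly.map (l := fun a => (List.range (M a)).reverse)
      (F := fun a j => yv (τ a) (min j (M a))) (by fun_prop) ?_
    exact poly_yv hM' hτ' hsnd
  have h3 : NPC.Poly (fun a => φ a ((List.range (M a)).reverse.map
      (fun j => yv (τ a) (min j (M a))))) :=
    hφ.comp (f := fun a => (a, (List.range (M a)).reverse.map
      (fun j => yv (τ a) (min j (M a))))) (NPC.Poly.pair NPC.Poly.id h2)
  have h4 : NPC.Poly (fun a => yv (τ a) (min 0 (M a))) := poly_yv hM hτ (NPC.Poly.const 0)
  have h5 : NPC.Poly (fun p : α × ℕ => dg (τ p.1) (min p.2 (M p.1))) := poly_dg hM' hτ' hsnd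
  have h6 : NPC.Poly (fun p : α × ℕ => yv (τ p.1) (min (p.2 + 1) (M p.1))) :=
    poly_yv hM' hτ' (by fun_prop)
  have hr1 : NPC.Poly (fun p : α × ℕ => r p.1 (2 * p.2)) :=
    hr.comp (f := fun p : α × ℕ => (p.1, 2 * p.2)) (by fun_prop)
  have hr2 : NPC.Poly (fun p : α × ℕ => r p.1 (2 * p.2 + 1)) :=
    hr.comp (f := fun p : α × ℕ => (p.1, 2 * p.2 + 1)) (by fun_prop)
  have h7 : NPC.Poly (fun p : α × ℕ =>
      ((bif decide (p.2 + 1 = M p.1) then tgt p.1 else
        2 * (p.2 + 1) + (bif yv (τ p.1) (min (p.2 + 1) (M p.1)) then 1 else 0)),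
      (decide (dg (τ p.1) (min p.2 (M p.1)) = 2) && decide (τ p.1 % 8 ^ min p.2 (M p.1) = 0)) &&
        (bif (qs p.1).getD (M p.1 - 1 - p.2) false then r p.1 (2 * p.2) && r p.1 (2 * p.2 + 1)
          else r p.1 (2 * p.2) || r p.1 (2 * p.2 + 1)))) := by
    fun_prop
  refine (NPC.Poly.optElim (o := fun a => ((List.range (M a)).reverse.filter
      (fun j => !actv (τ a) (min j (M a)))).head?)
    (g := fun a => ((bif decide (M a = 0) then tgt a else
      (bif yv (τ a) (min 0 (M a)) then 1 else 0)),
      φ a ((List.range (M a)).reverse.map (fun j => yv (τ a) (min j (M a))))))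
    (h := fun a j => ((bif decide (j + 1 = M a) then tgt a else
        2 * (j + 1) + (bif yv (τ a) (min (j + 1) (M a)) then 1 else 0)),
      (decide (dg (τ a) (min j (M a)) = 2) && decide (τ a % 8 ^ min j (M a) = 0)) &&
        (bif (qs a).getD (M a - 1 - j) false then r a (2 * j) && r a (2 * j + 1)
          else r a (2 * j) || r a (2 * j + 1)))) (by fun_prop) (by fun_prop) h7).congr ?_
  intro a
  have e1 : (List.range (M a)).reverse.filter (fun j => !actv (τ a) (min j (M a))) =
      (List.range (M a)).reverse.filter (fun j => !actv (τ a) j) := by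
    apply List.filter_congr
    intro j hj
    rw [List.mem_reverse, List.mem_range] at hj
    rw [min_eq_left hj.le]
  have e2 : (List.range (M a)).reverse.map (fun j => yv (τ a) (min j (M a))) =
      (List.range (M a)).reverse.map (yv (τ a)) := by
    apply List.map_congr_left
    intro j hj
    rw [List.mem_reverse, List.mem_range] at hj
    rw [min_eq_left hj.le]
  unfold lookC
  rw [e1, e2, Nat.zero_min]
  rcases hh : ((List.range (M a)).reverse.filter (fun j => !actv (τ a) j)).head? with _ | j
  · rfl
  · have hj : j < M a := by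
      have h3 := List.mem_of_mem_head? hh
      rw [List.mem_filter, List.mem_reverse, List.mem_range] at h3
      exact h3.1
    simp only [Option.elim_some]
    rw [min_eq_left hj.le, min_eq_left (show j + 1 ≤ M a from hj)]
    rfl

end Pool.Agent.V7H78.TR2
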