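import Pool.Agent.V7H78.TR2.PolyA
import Pool.Agent.H656R2.AK.TQPoly

/-!
# Polynomial-time computability, second part: the automorphism
-/

set_option autoImplicit false

namespace Pool.Agent.V7H78.TR2

open Pool.Agent.NPC Pool.Agent.H623R2.PS Function
open Pool.Agent.H656R2.AK (QF evc)

/-! ### Padding the quantifiers -/

theorem evq_const (e : List Bool) (c : Bool) : evq e (fun _ => c) = c := by
  induction e with
  | nil => rfl
  | cons q e ih =>
    rw [evq, ih]
    cases q <;> cases c <;> rfl

theorem evq_pad (qs e : List Bool) (χ : List Bool → Bool) :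
    evq (qs ++ e) (fun v => χ (v.take qs.length)) = evq qs χ := by
  induction qs generalizing χ with
  | nil =>
    simp only [List.nil_append, List.length_nil, List.take_zero]
    rw [evq_const]
    rfl
  | cons q qs ih =>
    rw [List.cons_append, evq, evq]
    simp only [List.length_cons, List.take_succ_cons]
    rw [ih (fun v => χ (false :: v)), ih (fun v => χ (true :: v))]

section

variable (inst : List Bool → QF) (μ : Polynomial ℕ)

/-- the number of levels -/
@[irreducible] def MM (k : ℕ) : ℕ := μ.eval k

/-- the padded quantifiers -/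
def qsI (w : List Bool) : List Bool :=
  (inst w).1 ++ List.replicate (MM μ w.length - (inst w).1.length) false

/-- the matrix -/
def phI (w v : List Bool) : Bool := evc (v.take (inst w).1.length) (inst w).2

theorem MM_mono : Monotone (MM μ) := fun _ _ h => by
  unfold MM
  exact eval_mono μ h

theorem evq_qsI (w : List Bool) :
    evq (qsI inst μ w) (phI inst w) = evq (inst w).1 (fun v => evc v (inst w).2) :=
  evq_pad (inst w).1 _ (fun v => evc v (inst w).2)

theorem qsI_length (h : ∀ w, (inst w).1.length ≤ MM μ w.length) (w : List Bool) :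
    (qsI inst μ w).length = MM μ w.length := by
  unfold qsI
  rw [List.length_append, List.length_replicate]
  have := h w
  omega

variable {inst μ} {α : Type} [TEnc α]

theorem upoly_MM {n : α → ℕ} (hn : UPoly n) : UPoly (fun a => MM μ (n a)) := by
  unfold MM
  exact hn.eval μ

theorem poly_qsI (hi : NPC.Poly inst) : NPC.Poly (qsI inst μ) := by
  have h1 : UPoly (fun w : List Bool => MM μ w.length) := upoly_MM (UPoly.length NPC.Poly.id)
  have h1p := h1.toPoly
  have h2 : UPoly (fun w : List Bool => MM μ w.length - (inst w).1.length) :=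
    UPoly.of_le (by fun_prop) h1 fun a => Nat.sub_le _ _
  have h3 := poly_replicate h2 false
  unfold qsI
  fun_prop

theorem poly_phI (hi : NPC.Poly inst) :
    NPC.Poly (fun p : List Bool × List Bool => phI inst p.1 p.2) := by
  unfold phI evc
  have h1 : NPC.Poly (fun p : List Bool × List Bool => p.2.take (inst p.1).1.length) := by fun_prop
  refine NPC.Poly.all (l := fun p : List Bool × List Bool => (inst p.1).2)
    (p := fun p c => c.any fun l => (p.2.take (inst p.1).1.length).getD l.2 false == l.1)
    (by fun_prop) ?_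
  refine NPC.Poly.any (l := fun x : (List Bool × List Bool) × List (Bool × ℕ) => x.2)
    (p := fun x l => (x.1.2.take (inst x.1.1).1.length).getD l.2 false == l.1) (by fun_prop) ?_
  have h2 : NPC.Poly (fun x : ((List Bool × List Bool) × List (Bool × ℕ)) × (Bool × ℕ) =>
      decide ((x.1.1.2.take (inst x.1.1.1).1.length).getD x.2.2 false = x.2.1)) := by
    have h3 : NPC.Poly (fun x : ((List Bool × List Bool) × List (Bool × ℕ)) × (Bool × ℕ) =>
        x.1.1.2.take (inst x.1.1.1).1.length) := h1.comp (f := fun x :
          ((List Bool × List Bool) × List (Bool × ℕ)) × (Bool × ℕ) => x.1.1) (by fun_prop)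
    fun_prop
  refine h2.congr fun x => ?_
  rw [beq_eq_decide]

theorem upoly_cc {n : α → ℕ} (hn : UPoly n) : UPoly (fun a => cc (MM μ) (n a)) := by
  unfold cc
  exact (((UPoly.const 3).mul (upoly_MM hn)).add hn).add (UPoly.const 4)

theorem upoly_LL {n : α → ℕ} (hn : UPoly n) : UPoly (fun a => LL (MM μ) (n a)) := by
  unfold LL
  exact (hn.add (UPoly.const 1)).mul
    ((((UPoly.const 5).mul (upoly_MM hn)).add ((UPoly.const 2).mul hn)).add (UPoly.const 5))

theorem poly_tm {M c τ : α → ℕ} (hM : UPoly M) (hc : UPoly c) (hτ : NPC.Poly τ) :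
    NPC.Poly (fun a => tm (M a) (c a) (τ a)) := by
  have h8 := poly_pow8 hM
  have h2 := poly_pow2 hc
  unfold tm
  refine NPC.Poly.ite (p := fun a => τ a < 8 ^ M a) (by fun_prop) hτ ?_
  exact NPC.Poly.ite (p := fun a => 2 ^ c a - 2 * 8 ^ M a ≤ τ a) (by fun_prop) (by fun_prop)
    (by fun_prop)

variable (inst μ)

/-- `pr` in closed form, with the time as a parameter -/
def prD (k τ : ℕ) (z : List Bool) : Bool :=
    (decide (z.length = k +
      (lookC (qsI inst μ (z.take k)).length (qsI inst μ (z.take k))
        (phI inst (z.take k)) (2 * MM μ k) τ (fun j => z.getD (k + j) false)).1) &&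
      (lookC (qsI inst μ (z.take k)).length (qsI inst μ (z.take k))
        (phI inst (z.take k)) (2 * MM μ k) τ (fun j => z.getD (k + j) false)).2)

/-- `pr` in closed form -/
def prC (k : ℕ) (v : List Bool) : Bool :=
  decide (cc (MM μ) k ≤ v.length) &&
    (decide (tm (MM μ k) (cc (MM μ) k) (valB (v.take (cc (MM μ) k))) < 8 ^ MM μ k) &&
      prD inst μ k (tm (MM μ k) (cc (MM μ) k) (valB (v.take (cc (MM μ) k))))
        (v.drop (cc (MM μ) k)))

variable {inst μ}

theorem pr_eq_prC (h : ∀ w, (inst w).1.length ≤ MM μ w.length) (k : ℕ) (v : List Bool) :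
    pr (MM μ) (qsI inst μ) (phI inst) k v = prC inst μ k v := by
  unfold pr prC
  congr 1
  set τ := tm (MM μ k) (cc (MM μ) k) (valB (v.take (cc (MM μ) k)))
  by_cases hτ : τ < 8 ^ MM μ k
  · rw [decide_eq_true hτ, Bool.true_and, Bool.true_and]
    unfold gz lk prD
    set z := v.drop (cc (MM μ) k) with hz
    by_cases hl : k ≤ z.length
    · have hw : (z.take k).length = k := by rw [List.length_take]; omega
      rw [lookup_eq_lookC]
      rw [qsI_length inst μ h, hw]
      exact hτ
    · rw [decide_eq_false (by omega), decide_eq_false (by omega)]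
      rfl
  · rw [decide_eq_false hτ, Bool.false_and, Bool.false_and]

theorem poly_prD (hi : NPC.Poly inst) {k τ : α → ℕ} (hk : UPoly k) (hτ : NPC.Poly τ)
    {z : α → List Bool} (hz : NPC.Poly z) :
    NPC.Poly (fun a => prD inst μ (k a) (τ a) (z a)) := by
  have hkp := hk.toPoly
  have hM : UPoly (fun a => MM μ (k a)) := upoly_MM hk
  have hMp := hM.toPoly
  have hw : NPC.Poly (fun a => (z a).take (k a)) := by fun_prop
  have hqs : NPC.Poly (fun a => qsI inst μ ((z a).take (k a))) := (poly_qsI hi).comp hw
  have hφ : NPC.Poly (fun p : α × List Bool => phI inst ((z p.1).take (k p.1)) p.2) := by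
    refine (poly_phI hi).comp (f := fun p : α × List Bool => (((z p.1).take (k p.1)), p.2)) ?_
    have := hw.comp (f := fun p : α × List Bool => p.1) (by fun_prop)
    fun_prop
  have hr : NPC.Poly (fun p : α × ℕ => (z p.1).getD (k p.1 + p.2) false) := by
    have h1 := hz.comp (f := fun p : α × ℕ => p.1) (by fun_prop)
    have h2 := hkp.comp (f := fun p : α × ℕ => p.1) (by fun_prop)
    fun_prop
  have hL := poly_lookC (M := fun a => (qsI inst μ ((z a).take (k a))).length)
    (UPoly.length hqs) hqs (φ := fun a u => phI inst ((z a).take (k a)) u) hφ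
    (tgt := fun a => 2 * MM μ (k a)) (by fun_prop) hτ
    (r := fun a j => (z a).getD (k a + j) false) hr
  unfold prD
  fun_prop

theorem poly_prC (hi : NPC.Poly inst) {k : α → ℕ} (hk : UPoly k) {v : α → List Bool}
    (hv : NPC.Poly v) : NPC.Poly (fun a => prC inst μ (k a) (v a)) := by
  have hM : UPoly (fun a => MM μ (k a)) := upoly_MM hk
  have hcU : UPoly (fun a => cc (MM μ) (k a)) := upoly_cc hk
  have hc := hcU.toPoly
  have h8 := poly_pow8 hM
  have hz : NPC.Poly (fun a => (v a).drop (cc (MM μ) (k a))) := by fun_prop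
  have hτ : NPC.Poly (fun a => valB ((v a).take (cc (MM μ) (k a)))) :=
    NPC.Poly.valBits (by fun_prop)
  have ht := poly_tm hM hcU hτ
  have hD := poly_prD (μ := μ) hi hk ht hz
  unfold prC
  fun_prop

/-- The portrait is computed in polynomial time. -/
theorem poly_gG (hi : NPC.Poly inst) (h : ∀ w, (inst w).1.length ≤ MM μ w.length) :
    NPC.Poly (gG (MM μ) (qsI inst μ) (phI inst)) := by
  have hmin : UPoly (fun p : List Bool × ℕ => min p.2 p.1.length) :=
    UPoly.of_le (by fun_prop) (UPoly.length (l := fun p : List Bool × ℕ => p.1) (by fun_prop))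
      fun p => min_le_right _ _
  have hL1 := (upoly_LL (μ := μ) hmin).toPoly
  have hL2 := (upoly_LL (μ := μ) (hmin.add (UPoly.const 1))).toPoly
  have hpr := poly_prC (μ := μ) hi hmin
    (v := fun p : List Bool × ℕ => p.1.drop (LL (MM μ) (min p.2 p.1.length))) (by fun_prop)
  have hbody : NPC.Poly (fun p : List Bool × ℕ =>
      ((decide (LL (MM μ) (min p.2 p.1.length) ≤ p.1.length) &&
        decide (p.1.length < LL (MM μ) (min p.2 p.1.length + 1))) &&
      ((p.1.take (LL (MM μ) (min p.2 p.1.length))).all (fun b => b) &&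
        prC inst μ (min p.2 p.1.length) (p.1.drop (LL (MM μ) (min p.2 p.1.length)))))) := by
    fun_prop
  have hany := NPC.Poly.any (l := fun u : List Bool => List.range (u.length + 1))
    (p := fun u k => ((decide (LL (MM μ) (min k u.length) ≤ u.length) &&
        decide (u.length < LL (MM μ) (min k u.length + 1))) &&
      ((u.take (LL (MM μ) (min k u.length))).all (fun b => b) &&
        prC inst μ (min k u.length) (u.drop (LL (MM μ) (min k u.length)))))) (by fun_prop) hbody
  have hall : NPC.Poly (fun u : List Bool => u.all (fun b => b)) := by fun_prop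
  refine (NPC.Poly.xor hall hany).congr fun u => ?_
  unfold gG
  congr 1
  rw [Bool.eq_iff_iff, List.any_eq_true, List.any_eq_true]
  refine exists_congr fun k => and_congr_right fun hk => ?_
  rw [List.mem_range] at hk
  rw [min_eq_left (by omega), pr_eq_prC h]
  rfl

theorem poly_FG (hi : NPC.Poly inst) (h : ∀ w, (inst w).1.length ≤ MM μ w.length) :
    NPC.Poly (FG (MM μ) (qsI inst μ) (phI inst)) :=
  poly_auto (poly_gG hi h)

end

/-! ### Writing a number in binary -/

theorem poly_toB {α : Type} [TEnc α] {n v : α → ℕ} (hn : UPoly n) (hv : NPC.Poly v) :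
    NPC.Poly (fun a => toB (n a) (v a)) := by
  have h1 := poly_replicate hn false
  have h2 := hn.toPoly
  have h3 := hv.natBits
  unfold toB
  fun_prop

theorem poly_sinv {α : Type} [TEnc α] (m : ℕ) {n : α → ℕ} (hn : UPoly n) :
    NPC.Poly (fun a => sinv m (n a)) := by
  have h2 := poly_pow2 hn
  have hf : NPC.Poly (fun a => (List.range m).filter
      (fun j => decide ((1 + j * 2 ^ n a) % m = 0))) := by
    refine NPC.Poly.filter (l := fun _ : α => List.range m)
      (p := fun a j => decide ((1 + j * 2 ^ n a) % m = 0)) (NPC.Poly.const _) ?_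
    have := h2.comp (f := fun p : α × ℕ => p.1) (by fun_prop)
    fun_prop
  have hj : NPC.Poly (fun a => jinv m (n a)) := by
    unfold jinv
    fun_prop
  unfold sinv
  fun_prop

/-! ### The reduction -/

section

variable {inst : List Bool → QF} {μ : Polynomial ℕ}

theorem poly_start (m : ℕ) : NPC.Poly (fun w : List Bool => start (MM μ) m w) := by
  have hk : UPoly (fun w : List Bool => w.length) := UPoly.length NPC.Poly.id
  have hL := upoly_LL (μ := μ) hk
  have hL1 := upoly_LL (μ := μ) (hk.add (UPoly.const 1))
  have hc := upoly_cc (μ := μ) hk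
  have hLp := hL.toPoly
  have hL1p := hL1.toPoly
  have hcp := hc.toPoly
  have hn : UPoly (fun w : List Bool => nn (MM μ) w.length) := by
    refine UPoly.of_le ?_ hL1 ?_
    · unfold nn
      fun_prop
    · intro w
      unfold nn
      omega
  have h1 := poly_replicate (hL.add hc) false
  have h2 := poly_pow2 (hk.add hn)
  have h3 := poly_pow2 (hL.add hc)
  have h4 := poly_sinv m hL1
  have hv : NPC.Poly (fun w : List Bool => valB w) := NPC.Poly.valBits NPC.Poly.id
  have h5 := poly_toB (hk.add hn) (v := fun w : List Bool =>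
    (valB w + 2 ^ (w.length + nn (MM μ) w.length) -
      sinv m (LL (MM μ) (w.length + 1)) / 2 ^ (LL (MM μ) w.length + cc (MM μ) w.length)))
    (by fun_prop)
  unfold start
  exact NPC.Poly.append h1 h5

/-- A polynomial-time root decides the language. -/
theorem inP_of_root (h : ∀ w, (inst w).1.length ≤ MM μ w.length)
    {g : List Bool → List Bool} (hg : TreeAut g) (hgp : PolyTime g) {m : ℕ} (hm : Odd m)
    (hm2 : 2 ≤ m) (h3 : ∀ x, g^[m] x = FG (MM μ) (qsI inst μ) (phI inst) x)
    {L : Set (List Bool)}
    (hL : ∀ x, x ∈ L ↔ evq (inst x).1 (fun v => evc v (inst x).2) = true) : InP L := by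
  classical
  have hval : ∀ w : List Bool, m ≤ 2 ^ (w.length + 1) →
      (g (start (MM μ) m w)).getD (LL (MM μ) w.length +
      (cc (MM μ) w.length + (w.length + 2 * MM μ w.length))) false =
      evq (inst w).1 (fun v => evc v (inst w).2) := by
    intro w hw
    rw [root_value (MM_mono μ) (qsI_length inst μ h) hg hm hm2 h3 w hw, evq_qsI]
  -- the short words
  have hfin : {w : List Bool | w.length < m ∧ w ∈ L}.Finite :=
    (List.finite_length_lt Bool m).subset fun w hw => hw.1
  obtain ⟨S, hS⟩ : ∃ S : List (List Bool), ∀ w, w ∈ S ↔ (w.length < m ∧ w ∈ L) :=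
    ⟨hfin.toFinset.toList, fun w => by simp⟩
  refine ⟨fun w => [if w.length < m then decide (w ∈ S) else
      (g (start (MM μ) m w)).getD (LL (MM μ) w.length +
      (cc (MM μ) w.length + (w.length + 2 * MM μ w.length))) false], ?_, ?_⟩
  · apply polyTime_of_poly
    have h1 : NPC.Poly (fun w : List Bool => g (start (MM μ) m w)) :=
      (NPC.PIso.poly_iff.2 hgp).comp (poly_start m)
    have hk : UPoly (fun w : List Bool => w.length) := UPoly.length NPC.Poly.id
    have hkp := hk.toPoly
    have h2 := (upoly_MM (μ := μ) hk).toPoly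
    have h4 := (upoly_LL (μ := μ) hk).toPoly
    have h5 := (upoly_cc (μ := μ) hk).toPoly
    have h3' : NPC.Poly (fun w : List Bool => LL (MM μ) w.length +
      (cc (MM μ) w.length + (w.length + 2 * MM μ w.length))) := by
      fun_prop
    have h6 : NPC.Poly (fun w : List Bool => decide (w ∈ S)) :=
      NPC.Poly.dec_mem NPC.Poly.id (NPC.Poly.const S)
    have h7 : NPC.Poly (fun w : List Bool => if w.length < m then decide (w ∈ S) else
      (g (start (MM μ) m w)).getD (LL (MM μ) w.length +
      (cc (MM μ) w.length + (w.length + 2 * MM μ w.length))) false) :=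
      NPC.Poly.ite (p := fun w : List Bool => w.length < m) (by fun_prop) h6
        (NPC.Poly.getD h1 h3' (NPC.Poly.const false))
    fun_prop
  · intro x
    show x ∈ L ↔ [_] = [true]
    by_cases hx : x.length < m
    · rw [if_pos hx]
      simp [hS, hx]
    · rw [if_neg hx, hval x ?_, hL]
      · simp
      · have h8 : m < 2 ^ m := Nat.lt_two_pow_self
        have h9 : 2 ^ m ≤ 2 ^ (x.length + 1) := Nat.pow_le_pow_right (by norm_num) (by omega)
        omega

end

end Pool.Agent.V7H78.TR2
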