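import Pool.Agent.H623R2.PS.Quant

/-!
# Evaluating a quantified formula by reversible, triangular updates

The registers are numbered; in every step one register is changed by adding (modulo two) a function
of the registers with smaller numbers.
-/

set_option autoImplicit false

namespace Pool.Agent.V7H78.TR2

open Pool.Agent.NPC Pool.Agent.H623R2.PS Function

/-- The register that is changed at time `τ`, and the bit which is added to it. -/
def lookup : List Bool → (List Bool → Bool) → ℕ → ℕ → (ℕ → Bool) → ℕ × Bool
  | [], φ, tgt, _, _ => (tgt, φ [])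
  | q :: qs, φ, tgt, τ, a =>
    if τ / 8 ^ qs.length = 0 ∨ τ / 8 ^ qs.length = 4 then
      lookup qs (fun v => φ (false :: v)) (2 * qs.length) (τ % 8 ^ qs.length) a
    else if τ / 8 ^ qs.length = 1 ∨ τ / 8 ^ qs.length = 3 then
      lookup qs (fun v => φ (true :: v)) (2 * qs.length + 1) (τ % 8 ^ qs.length) a
    else if τ / 8 ^ qs.length = 2 ∧ τ % 8 ^ qs.length = 0 then
      (tgt, bif q then a (2 * qs.length) && a (2 * qs.length + 1)
        else a (2 * qs.length) || a (2 * qs.length + 1))
    else (tgt, false)

/-- add the bit `p.2` to register `p.1` -/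
def flipAt (p : ℕ × Bool) (a : ℕ → Bool) : ℕ → Bool := update a p.1 (a p.1 ^^ p.2)

/-- the step at time `τ` -/
def stepA (qs : List Bool) (φ : List Bool → Bool) (tgt τ : ℕ) (a : ℕ → Bool) : ℕ → Bool :=
  flipAt (lookup qs φ tgt τ a) a

/-- the first `t` steps -/
def runA (qs : List Bool) (φ : List Bool → Bool) (tgt : ℕ) : ℕ → (ℕ → Bool) → ℕ → Bool
  | 0, a => a
  | t + 1, a => stepA qs φ tgt t (runA qs φ tgt t a)

@[simp] theorem flipAt_false (i : ℕ) (a : ℕ → Bool) : flipAt (i, false) a = a := by
  unfold flipAt
  simp

theorem lookup_fst (qs : List Bool) (φ : List Bool → Bool) (tgt τ : ℕ) (a a' : ℕ → Bool) :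
    (lookup qs φ tgt τ a).1 = (lookup qs φ tgt τ a').1 := by
  induction qs generalizing φ tgt τ with
  | nil => rfl
  | cons q qs ih =>
    unfold lookup
    split_ifs
    · exact ih _ _ _
    · exact ih _ _ _
    · rfl
    · rfl

theorem lookup_le (qs : List Bool) (φ : List Bool → Bool) (tgt τ : ℕ) (a : ℕ → Bool)
    (h : 2 * qs.length ≤ tgt) : (lookup qs φ tgt τ a).1 ≤ tgt := by
  induction qs generalizing φ tgt τ with
  | nil => exact le_rfl
  | cons q qs ih =>
    rw [List.length_cons] at h
    unfold lookup
    split_ifs
    · have := ih (fun v => φ (false :: v)) (2 * qs.length) (τ % 8 ^ qs.length) (by omega)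
      omega
    · have := ih (fun v => φ (true :: v)) (2 * qs.length + 1) (τ % 8 ^ qs.length) (by omega)
      omega
    · exact le_rfl
    · exact le_rfl

theorem lookup_congr (qs : List Bool) (φ : List Bool → Bool) (tgt τ : ℕ) (a a' : ℕ → Bool)
    (h : 2 * qs.length ≤ tgt) (ha : ∀ j < (lookup qs φ tgt τ a).1, a j = a' j) :
    lookup qs φ tgt τ a = lookup qs φ tgt τ a' := by
  induction qs generalizing φ tgt τ with
  | nil => rfl
  | cons q qs ih =>
    rw [List.length_cons] at h
    unfold lookup at ha ⊢
    split_ifs at ha ⊢
    · exact ih _ _ _ (by omega) ha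
    · exact ih _ _ _ (by omega) ha
    · rw [ha _ (by simp only; omega), ha _ (by simp only; omega)]
    · rfl

/-- the event of a level -/
def evA (q : Bool) (j tgt : ℕ) (a : ℕ → Bool) : ℕ → Bool :=
  flipAt (tgt, bif q then a (2 * j) && a (2 * j + 1) else a (2 * j) || a (2 * j + 1)) a

section level

variable (q : Bool) (qs : List Bool) (φ : List Bool → Bool) (tgt : ℕ)

theorem step_time {D r : ℕ} (hr : r < 8 ^ qs.length) (a : ℕ → Bool) :
    stepA (q :: qs) φ tgt (D * 8 ^ qs.length + r) a =
      if D = 0 ∨ D = 4 then stepA qs (fun v => φ (false :: v)) (2 * qs.length) r a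
      else if D = 1 ∨ D = 3 then stepA qs (fun v => φ (true :: v)) (2 * qs.length + 1) r a
      else if D = 2 ∧ r = 0 then evA q qs.length tgt a else a := by
  have h1 : (D * 8 ^ qs.length + r) / 8 ^ qs.length = D := by
    rw [mul_comm, Nat.mul_add_div (by positivity), Nat.div_eq_of_lt hr, add_zero]
  have h2 : (D * 8 ^ qs.length + r) % 8 ^ qs.length = r := by
    rw [mul_comm, Nat.mul_add_mod, Nat.mod_eq_of_lt hr]
  unfold stepA
  rw [lookup, h1, h2]
  split_ifs
  · rfl
  · rfl
  · rfl
  · rw [flipAt_false]

theorem run_false {D : ℕ} (hD : D = 0 ∨ D = 4) (a : ℕ → Bool) (r : ℕ) (hr : r ≤ 8 ^ qs.length) :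
    runA (q :: qs) φ tgt (D * 8 ^ qs.length + r) a =
      runA qs (fun v => φ (false :: v)) (2 * qs.length) r
        (runA (q :: qs) φ tgt (D * 8 ^ qs.length) a) := by
  induction r with
  | zero => rfl
  | succ r ih =>
    rw [← add_assoc, runA, ih (by omega), step_time q qs φ tgt (by omega), if_pos hD]
    rfl

theorem run_true {D : ℕ} (hD : D = 1 ∨ D = 3) (a : ℕ → Bool) (r : ℕ) (hr : r ≤ 8 ^ qs.length) :
    runA (q :: qs) φ tgt (D * 8 ^ qs.length + r) a =
      runA qs (fun v => φ (true :: v)) (2 * qs.length + 1) r
        (runA (q :: qs) φ tgt (D * 8 ^ qs.length) a) := by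
  induction r with
  | zero => rfl
  | succ r ih =>
    rw [← add_assoc, runA, ih (by omega), step_time q qs φ tgt (by omega),
      if_neg (by omega), if_pos hD]
    rfl

theorem run_event (a : ℕ → Bool) (r : ℕ) (hr : r < 8 ^ qs.length) :
    runA (q :: qs) φ tgt (2 * 8 ^ qs.length + (r + 1)) a =
      evA q qs.length tgt (runA (q :: qs) φ tgt (2 * 8 ^ qs.length) a) := by
  induction r with
  | zero =>
    rw [zero_add, runA]
    have := step_time q qs φ tgt (D := 2) (r := 0) (by positivity)
      (runA (q :: qs) φ tgt (2 * 8 ^ qs.length) a)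
    rw [add_zero] at this
    rw [this]
    simp
  | succ r ih =>
    rw [← add_assoc, runA, ih (by omega), step_time q qs φ tgt (by omega),
      if_neg (by omega), if_neg (by omega), if_neg (by omega)]

theorem run_idle {D : ℕ} (hD : 5 ≤ D) (a : ℕ → Bool) (r : ℕ) (hr : r ≤ 8 ^ qs.length) :
    runA (q :: qs) φ tgt (D * 8 ^ qs.length + r) a =
        (runA (q :: qs) φ tgt (D * 8 ^ qs.length) a) := by
  induction r with
  | zero => rfl
  | succ r ih =>
    rw [← add_assoc, runA, ih (by omega), step_time q qs φ tgt (by omega),
      if_neg (by omega), if_neg (by omega), if_neg (by omega)]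

/-- the whole program -/
def fullA (qs : List Bool) (φ : List Bool → Bool) (tgt : ℕ) (a : ℕ → Bool) : ℕ → Bool :=
  runA qs φ tgt (8 ^ qs.length) a

theorem full_cons (a : ℕ → Bool) :
    fullA (q :: qs) φ tgt a =
      fullA qs (fun v => φ (false :: v)) (2 * qs.length)
        (fullA qs (fun v => φ (true :: v)) (2 * qs.length + 1)
          (evA q qs.length tgt
            (fullA qs (fun v => φ (true :: v)) (2 * qs.length + 1)
              (fullA qs (fun v => φ (false :: v)) (2 * qs.length) a)))) := by
  set P := 8 ^ qs.length with hP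
  have hpos : 0 < P := by positivity
  have e0 : runA (q :: qs) φ tgt (1 * P) a = fullA qs (fun v => φ (false :: v)) (2 * qs.length) a := by
    have := run_false q qs φ tgt (D := 0) (Or.inl rfl) a P le_rfl
    rw [show 1 * P = 0 * 8 ^ qs.length + P by ring, this]
    simp only [zero_mul]
    rfl
  have e1 := run_true q qs φ tgt (D := 1) (Or.inl rfl) a P le_rfl
  rw [← hP, e0, show 1 * P + P = 2 * P by ring] at e1
  have e2 := run_event q qs φ tgt a (P - 1) (by omega)
  rw [← hP, e1, show 2 * P + (P - 1 + 1) = 3 * P by omega] at e2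
  have e3 := run_true q qs φ tgt (D := 3) (Or.inr rfl) a P le_rfl
  rw [← hP, e2, show 3 * P + P = 4 * P by ring] at e3
  have e4 := run_false q qs φ tgt (D := 4) (Or.inr rfl) a P le_rfl
  rw [← hP, e3, show 4 * P + P = 5 * P by ring] at e4
  have e5 := run_idle q qs φ tgt (D := 5) le_rfl a P le_rfl
  rw [← hP, e4, show 5 * P + P = 6 * P by ring] at e5
  have e6 := run_idle q qs φ tgt (D := 6) (by norm_num) a P le_rfl
  rw [← hP, e5, show 6 * P + P = 7 * P by ring] at e6
  have e7 := run_idle q qs φ tgt (D := 7) (by norm_num) a P le_rfl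
  rw [← hP, e6, show 7 * P + P = 8 * P by ring] at e7
  unfold fullA at *
  rw [List.length_cons, pow_succ, mul_comm _ 8, ← hP, e7]

end level

theorem flipAt_flipAt (i : ℕ) (v : Bool) (a : ℕ → Bool) :
    flipAt (i, v) (flipAt (i, v) a) = a := by
  unfold flipAt
  funext j
  by_cases h : j = i
  · subst h; simp
  · simp [update_of_ne h]

theorem evA_evA (q : Bool) (j tgt : ℕ) (h : 2 * j + 2 ≤ tgt) (a : ℕ → Bool) :
    evA q j tgt (evA q j tgt a) = a := by
  have h1 : ∀ i, i ≠ tgt → evA q j tgt a i = a i := by
    intro i hi
    unfold evA flipAt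
    exact update_of_ne hi _ _
  have e : evA q j tgt (evA q j tgt a) =
      flipAt (tgt, bif q then a (2 * j) && a (2 * j + 1) else a (2 * j) || a (2 * j + 1))
        (evA q j tgt a) := by
    conv_lhs => unfold evA
    change flipAt (tgt, bif q then evA q j tgt a (2 * j) && evA q j tgt a (2 * j + 1) else
      evA q j tgt a (2 * j) || evA q j tgt a (2 * j + 1)) (evA q j tgt a) = _
    rw [h1 (2 * j) (by omega), h1 (2 * j + 1) (by omega)]
  rw [e]
  exact flipAt_flipAt _ _ _

/-- The program is an involution. -/
theorem full_full (qs : List Bool) (φ : List Bool → Bool) (tgt : ℕ) (h : 2 * qs.length ≤ tgt)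
    (a : ℕ → Bool) : fullA qs φ tgt (fullA qs φ tgt a) = a := by
  induction qs generalizing φ tgt a with
  | nil =>
    change flipAt (tgt, φ []) (flipAt (tgt, φ []) a) = a
    exact flipAt_flipAt _ _ _
  | cons q qs ih =>
    rw [List.length_cons] at h
    rw [full_cons, full_cons]
    rw [ih (fun v => φ (false :: v)) (2 * qs.length) le_rfl,
      ih (fun v => φ (true :: v)) (2 * qs.length + 1) (by omega),
      evA_evA q qs.length tgt (by omega),
      ih (fun v => φ (true :: v)) (2 * qs.length + 1) (by omega),
      ih (fun v => φ (false :: v)) (2 * qs.length) le_rfl]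

/-- On clean registers the program adds the value of the formula to the target. -/
theorem full_clean (qs : List Bool) (φ : List Bool → Bool) (tgt : ℕ) (h : 2 * qs.length ≤ tgt)
    (a : ℕ → Bool) (ha : ∀ i < 2 * qs.length, a i = false) :
    fullA qs φ tgt a = flipAt (tgt, evq qs φ) a := by
  induction qs generalizing φ tgt a with
  | nil => rfl
  | cons q qs ih =>
    rw [List.length_cons] at h ha
    rw [full_cons]
    set V0 := evq qs (fun v => φ (false :: v)) with hV0
    set V1 := evq qs (fun v => φ (true :: v)) with hV1
    have hne : 2 * qs.length + 1 ≠ 2 * qs.length := by omega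
    have e0 : fullA qs (fun v => φ (false :: v)) (2 * qs.length) a =
        update a (2 * qs.length) V0 := by
      rw [ih _ _ le_rfl _ (fun i hi => ha i (by omega))]
      unfold flipAt
      simp [ha (2 * qs.length) (by omega), ← hV0]
    have e1 : fullA qs (fun v => φ (true :: v)) (2 * qs.length + 1) (update a (2 * qs.length) V0) =
        update (update a (2 * qs.length) V0) (2 * qs.length + 1) V1 := by
      rw [ih _ _ (by omega) _ (fun i hi => by
        rw [update_of_ne (by omega)]; exact ha i (by omega))]
      unfold flipAt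
      simp only
      rw [update_of_ne hne, ha _ (by omega)]
      simp [← hV1]
    rw [e0, e1]
    set b := update (update a (2 * qs.length) V0) (2 * qs.length + 1) V1 with hb
    have hb0 : b (2 * qs.length) = V0 := by
      rw [hb, update_of_ne (by omega), update_self]
    have hb1 : b (2 * qs.length + 1) = V1 := by rw [hb, update_self]
    have hbt : b tgt = a tgt := by
      rw [hb, update_of_ne (by omega), update_of_ne (by omega)]
    have e2 : evA q qs.length tgt b = update b tgt (a tgt ^^ evq (q :: qs) φ) := by
      unfold evA flipAt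
      simp only [hb0, hb1, hbt]
      rw [evq, ← hV0, ← hV1]
    rw [e2]
    set V := a tgt ^^ evq (q :: qs) φ with hV
    have e3 : fullA qs (fun v => φ (true :: v)) (2 * qs.length + 1) (update b tgt V) =
        update (update b tgt V) (2 * qs.length + 1) false := by
      rw [ih _ _ (by omega) _ (fun i hi => by
        rw [update_of_ne (by omega), hb, update_of_ne (by omega), update_of_ne (by omega)]
        exact ha i (by omega))]
      unfold flipAt
      simp only
      rw [update_of_ne (by omega), hb1, ← hV1]
      simp
    rw [e3]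
    have e4 : fullA qs (fun v => φ (false :: v)) (2 * qs.length)
        (update (update b tgt V) (2 * qs.length + 1) false) =
        update (update (update b tgt V) (2 * qs.length + 1) false) (2 * qs.length) false := by
      rw [ih _ _ le_rfl _ (fun i hi => by
        rw [update_of_ne (by omega), update_of_ne (by omega), hb, update_of_ne (by omega),
          update_of_ne (by omega)]
        exact ha i (by omega))]
      unfold flipAt
      simp only
      rw [update_of_ne (by omega), update_of_ne (by omega), hb0, ← hV0]
      simp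
    rw [e4]
    funext i
    unfold flipAt
    by_cases h1 : i = 2 * qs.length
    · rw [h1, update_self, update_of_ne (by simp only; omega), ha _ (by omega)]
    · rw [update_of_ne h1]
      by_cases h2 : i = 2 * qs.length + 1
      · rw [h2, update_self, update_of_ne (by simp only; omega), ha _ (by omega)]
      · rw [update_of_ne h2]
        by_cases h3 : i = tgt
        · rw [h3, update_self, update_self]
        · rw [update_of_ne h3, update_of_ne h3, hb, update_of_ne h2, update_of_ne h1]

end Pool.Agent.V7H78.TR2
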