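import Pool.Agent.V7H78.TR2.Final

/-!
# Polynomial space without assumptions
-/

set_option autoImplicit false

namespace Pool.Agent.V7H78.TR2

open Pool.Agent.NPC Pool.Agent.H623R2.PS Function
open Pool.Agent.H656R2.AK (QF evc qbf_hard)

/-- The decision problem attached to `g`: is a given bit of the value of `g` at a given string equal
to one? -/
def BitOf (g : List Bool → List Bool) (p : List Bool × ℕ) : Prop := (g p.1).getD p.2 false = true

theorem inPSPACE_iterBit_of {f : List Bool → List Bool} (hl : ∀ x, (f x).length = x.length)
    (hp : NPC.Poly f) {J : List Bool → Option (List Bool × ℕ × ℕ)} (hJ : NPC.Poly J)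
    {L : Set (List Bool)} (hL : ∀ z, z ∈ L ↔ ∃ p, J z = some p ∧ IterBit f p) : InPSPACE L := by
  have hlen : ∀ n x, (f^[n] x).length = x.length := by
    intro n
    induction n with
    | zero => intro x; rfl
    | succ n ih => intro x; rw [Function.iterate_succ_apply, ih, hl]
  obtain ⟨r, hr⟩ := hJ.sz_le
  have hstp : NPC.Poly (stp f) := by
    unfold stp
    fun_prop
  let N : List Bool → ℕ := fun z => ((J z).map (fun p => p.2.1)).getD 0
  have hit : ∀ (n : ℕ) (z : List Bool), (fun b : Option (List Bool × ℕ × ℕ) =>
      ((b.elim true (fun p => decide (p.2.1 = 0)), b.map (stp f)) :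
        Bool × Option (List Bool × ℕ × ℕ)).2)^[n] (J z) =
      (J z).map (stp f)^[n] := fun n z => optMap_iter _ n _
  refine inPSPACE_of_process (β := Option (List Bool × ℕ × ℕ))
    (init := J) hJ
    (F := fun b => (b.elim true (fun p => decide (p.2.1 = 0)), b.map (stp f))) ?_
    (out := fun b => b.elim false (fun p => p.1.getD p.2.2 false)) ?_
    (12 * r.comp (4 * Polynomial.X + 1) + 20) N ?_ ?_ ?_ ?_
  · have h1 : NPC.Poly (fun p : Option (List Bool × ℕ × ℕ) × (List Bool × ℕ × ℕ) => stp f p.2) :=
      hstp.comp (NPC.Poly.snd NPC.Poly.id)
    have h2 : NPC.Poly (fun b : Option (List Bool × ℕ × ℕ) =>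
        b.elim true (fun p => decide (p.2.1 = 0))) :=
      NPC.Poly.optElim (o := fun b : Option (List Bool × ℕ × ℕ) => b) (g := fun _ => true)
        (h := fun _ p => decide (p.2.1 = 0)) NPC.Poly.id (NPC.Poly.const _) (by fun_prop)
    have h3 : NPC.Poly (fun b : Option (List Bool × ℕ × ℕ) => b.map (stp f)) :=
      NPC.Poly.optMap_fp (o := fun b : Option (List Bool × ℕ × ℕ) => b)
        (h := fun _ p => stp f p) NPC.Poly.id h1
    exact NPC.Poly.pair h2 h3
  · exact NPC.Poly.optElim (o := fun b : Option (List Bool × ℕ × ℕ) => b) (g := fun _ => false)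
        (h := fun _ p => p.1.getD p.2.2 false) NPC.Poly.id (NPC.Poly.const _) (by fun_prop)
  · intro z i hi
    rw [hit]
    simp only [N] at hi
    rcases hz : J z with _ | p
    · rw [hz] at hi; simp at hi
    · rw [hz] at hi
      simp only [Option.map_some, Option.getD_some] at hi
      simp only [Option.map_some, Option.elim_some]
      rw [stp_iter f i p hi.le]
      simp only [decide_eq_false_iff_not]
      omega
  · intro z
    rw [hit]
    simp only [N]
    rcases hz : J z with _ | p
    · rfl
    · simp only [Option.map_some, Option.getD_some, Option.elim_some]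
      rw [stp_iter f _ p le_rfl]
      simp
  · intro z i hi
    rw [hit]
    simp only [N] at hi
    have hr1 := hr z
    have hr2 : r.eval (sz z) ≤ r.eval (4 * z.length + 1) := eval_mono r (sz_listBool_le z)
    simp only [Polynomial.eval_add, Polynomial.eval_mul, Polynomial.eval_X, Polynomial.eval_ofNat,
      Polynomial.eval_comp, Polynomial.eval_one]
    rcases hz : J z with _ | p
    · simp
    · rw [hz] at hi hr1
      simp only [Option.map_some, Option.getD_some] at hi
      simp only [Option.map_some]
      rw [sz_some] at hr1
      have key : ∀ j ≤ p.2.1, sz (some ((stp f)^[j] p)) ≤ 12 * sz p + 20 := by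
        intro j hj
        rw [stp_iter f j p hj]
        obtain ⟨x, t, m⟩ := p
        simp only [sz_some, sz_pair]
        have h1 : sz (f^[j] x) ≤ 4 * x.length + 1 := by
          have := sz_listBool_le (f^[j] x)
          rwa [hlen] at this
        have h2 := sz_listBool_ge x
        have h3 : sz (t - j) ≤ 2 * sz t := sz_nat_mono_le (Nat.sub_le _ _)
        omega
      have key2 : ∀ j ≤ p.2.1, sz (some ((stp f)^[j] p)) ≤
          12 * r.eval (4 * z.length + 1) + 20 := fun j hj => by
        have := key j hj
        omega
      by_cases h : i ≤ p.2.1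
      · exact key2 i h
      · have h1 : i = p.2.1 + 1 := by omega
        subst h1
        have h2 : (stp f)^[p.2.1 + 1] p = (stp f)^[p.2.1] p := by
          rw [Function.iterate_succ_apply', stp_iter f _ p le_rfl]
          simp [stp]
        rw [h2]
        exact key2 _ le_rfl
  · intro z
    rw [hit, hL]
    simp only [N]
    rcases hz : J z with _ | p
    · simp
    · simp only [Option.map_some, Option.getD_some, Option.elim_some]
      have h2 : (stp f)^[p.2.1 + 1] p = (stp f)^[p.2.1] p := by
        rw [Function.iterate_succ_apply', stp_iter f _ p le_rfl]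
        simp [stp]
      rw [h2, stp_iter f _ p le_rfl]
      simp [IterBit]

theorem inPSPACE_root {f : List Bool → List Bool} (hf : TreeAut f) (hp : NPC.Poly f) (m : ℕ) :
    InPSPACE (lang (BitOf (rt f m))) := by
  have hs : NPC.Poly (fun p : List Bool × ℕ => sinv m p.1.length) :=
    poly_sinv m (UPoly.length (l := fun p : List Bool × ℕ => p.1) (by fun_prop))
  refine inPSPACE_iterBit_of hf.len hp (J := fun z =>
    (unbits (List Bool × ℕ) z).map (fun p => (p.1, sinv m p.1.length, p.2))) ?_ ?_
  · refine NPC.Poly.optMap_fp (o := fun z => unbits (List Bool × ℕ) z)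
      (h := fun _ p => (p.1, sinv m p.1.length, p.2)) poly_unbits ?_
    have := hs.comp (f := fun q : List Bool × (List Bool × ℕ) => q.2) (by fun_prop)
    fun_prop
  · intro z
    rw [mem_lang_iff]
    constructor
    · rintro ⟨p, h1, h2⟩
      exact ⟨(p.1, sinv m p.1.length, p.2), by rw [h1]; rfl, h2⟩
    · rintro ⟨q, h1, h2⟩
      rcases hz : unbits (List Bool × ℕ) z with _ | p
      · rw [hz] at h1; simp at h1
      · rw [hz] at h1
        simp only [Option.map_some, Option.some.injEq] at h1
        subst h1
        exact ⟨p, rfl, h2⟩

/-! ### The conjugating automorphism -/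

/-- one step of the search for the time -/
def stq (f g : List Bool → List Bool) (p : List Bool × List Bool × List Bool × ℕ) :
    List Bool × List Bool × List Bool × ℕ :=
  (bif decide (p.1 = p.2.2.1) then p.1 else f p.1,
    bif decide (p.1 = p.2.2.1) then p.2.1 else g p.2.1, p.2.2.1, p.2.2.2)

theorem stq_iter (f g : List Bool → List Bool) (n : ℕ) (u v x : List Bool) (j : ℕ)
    (h : ∀ i < n, f^[i] u ≠ x) : (stq f g)^[n] (u, v, x, j) = (f^[n] u, g^[n] v, x, j) := by
  induction n with
  | zero => rfl
  | succ n ih =>
    rw [Function.iterate_succ_apply', ih (fun i hi => h i (by omega)), stq]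
    have h1 : ¬ (f^[n] u = x) := h n (by omega)
    simp only [h1, decide_false, cond_false]
    rw [Function.iterate_succ_apply', Function.iterate_succ_apply']

theorem stq_stop (f g : List Bool → List Bool) (v x : List Bool) (j : ℕ) :
    stq f g (x, v, x, j) = (x, v, x, j) := by
  unfold stq
  simp

section

variable {f g : List Bool → List Bool} (hf : TreeAut f) (ht : LevelTransitive f)
  (hg : TreeAut g)

/-- the time at which `f` reaches `x` from zero -/
def tim (f : List Bool → List Bool) (x : List Bool) : ℕ := valB (invF (orb f) x)

/-- the conjugating automorphism -/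
def cj (f g : List Bool → List Bool) (x : List Bool) : List Bool :=
  g^[tim f x] (List.replicate x.length false)

theorem cj_eq (x : List Bool) : cj f g x = orb g (invF (orb f) x) := by
  unfold cj tim orb
  rw [invF_length]

include hf ht in
theorem tim_spec (x : List Bool) : f^[tim f x] (List.replicate x.length false) = x := by
  have h := f_invF (orb_treeAut hf ht) x
  unfold orb at h
  rw [invF_length] at h
  exact h

include hf ht in
theorem tim_min (x : List Bool) (i : ℕ) (hi : i < tim f x) :
    f^[i] (List.replicate x.length false) ≠ x := by
  intro h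
  have h1 : f^[i] (List.replicate x.length false) =
      f^[tim f x] (List.replicate x.length false) := by rw [h, tim_spec hf ht]
  rw [iter_eq_iff hf _ (ht.at _), List.length_replicate] at h1
  have h2 : tim f x < 2 ^ x.length := by
    have := valB_lt (invF (orb f) x)
    rwa [invF_length] at this
  have := Nat.ModEq.eq_of_lt_of_lt h1 (by omega) h2
  omega

include hf ht hg in
theorem inPSPACE_cj (hfp : NPC.Poly f) (hgp : NPC.Poly g) : InPSPACE (lang (BitOf (cj f g))) := by
  have hrep : NPC.Poly (fun p : List Bool × ℕ => List.replicate p.1.length false) :=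
    poly_replicate (UPoly.length (l := fun p : List Bool × ℕ => p.1) (by fun_prop)) false
  let J : List Bool → Option (List Bool × List Bool × List Bool × ℕ) := fun z =>
    (unbits (List Bool × ℕ) z).map fun p =>
      (List.replicate p.1.length false, List.replicate p.1.length false, p.1, p.2)
  have hJ : NPC.Poly J := by
    refine NPC.Poly.optMap_fp (o := fun z => unbits (List Bool × ℕ) z)
      (h := fun _ p =>
        (List.replicate p.1.length false, List.replicate p.1.length false, p.1, p.2))
      poly_unbits ?_
    have := hrep.comp (f := fun q : List Bool × (List Bool × ℕ) => q.2) (by fun_prop)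
    fun_prop
  have hstp : NPC.Poly (stq f g) := by
    unfold stq
    fun_prop
  let N : List Bool → ℕ := fun z => ((unbits (List Bool × ℕ) z).map (fun p => tim f p.1)).getD 0
  have hit : ∀ (n : ℕ) (z : List Bool), (fun b : Option (List Bool × List Bool × List Bool × ℕ) =>
      ((b.elim true (fun p => decide (p.1 = p.2.2.1)), b.map (stq f g)) :
        Bool × Option (List Bool × List Bool × List Bool × ℕ)).2)^[n] (J z) =
      (J z).map (stq f g)^[n] := fun n z => optMap_iter _ n _
  have hrun : ∀ (p : List Bool × ℕ) (n : ℕ), n ≤ tim f p.1 →
      (stq f g)^[n] (List.replicate p.1.length false, List.replicate p.1.length false, p.1, p.2) =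
      (f^[n] (List.replicate p.1.length false), g^[n] (List.replicate p.1.length false),
        p.1, p.2) := fun p n hn =>
    stq_iter f g n _ _ _ _ fun i hi => tim_min hf ht p.1 i (by omega)
  have hlast : ∀ (p : List Bool × ℕ), (stq f g)^[tim f p.1 + 1]
      (List.replicate p.1.length false, List.replicate p.1.length false, p.1, p.2) =
      (p.1, cj f g p.1, p.1, p.2) := by
    intro p
    rw [Function.iterate_succ_apply', hrun p _ le_rfl, tim_spec hf ht, stq_stop]
    rfl
  refine inPSPACE_of_process (β := Option (List Bool × List Bool × List Bool × ℕ))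
    (init := J) hJ
    (F := fun b => (b.elim true (fun p => decide (p.1 = p.2.2.1)), b.map (stq f g))) ?_
    (out := fun b => b.elim false (fun p => p.2.1.getD p.2.2.2 false)) ?_
    (12 * Polynomial.X + 20) N ?_ ?_ ?_ ?_
  · have h1 : NPC.Poly (fun p : Option (List Bool × List Bool × List Bool × ℕ) ×
        (List Bool × List Bool × List Bool × ℕ) => stq f g p.2) :=
      hstp.comp (NPC.Poly.snd NPC.Poly.id)
    have h2 : NPC.Poly (fun b : Option (List Bool × List Bool × List Bool × ℕ) =>
        b.elim true (fun p => decide (p.1 = p.2.2.1))) :=
      NPC.Poly.optElim (o := fun b : Option (List Bool × List Bool × List Bool × ℕ) => b)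
        (g := fun _ => true)
        (h := fun _ p => decide (p.1 = p.2.2.1)) NPC.Poly.id (NPC.Poly.const _) (by fun_prop)
    have h3 : NPC.Poly (fun b : Option (List Bool × List Bool × List Bool × ℕ) =>
        b.map (stq f g)) :=
      NPC.Poly.optMap_fp (o := fun b : Option (List Bool × List Bool × List Bool × ℕ) => b)
        (h := fun _ p => stq f g p) NPC.Poly.id h1
    exact NPC.Poly.pair h2 h3
  · exact NPC.Poly.optElim (o := fun b : Option (List Bool × List Bool × List Bool × ℕ) => b)
        (g := fun _ => false)
        (h := fun _ p => p.2.1.getD p.2.2.2 false) NPC.Poly.id (NPC.Poly.const _) (by fun_prop)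
  · intro z i hi
    rw [hit]
    simp only [N] at hi
    simp only [J]
    rcases hz : unbits (List Bool × ℕ) z with _ | p
    · rw [hz] at hi; simp at hi
    · rw [hz] at hi
      simp only [Option.map_some, Option.getD_some] at hi
      simp only [Option.map_some, Option.elim_some]
      rw [hrun p i hi.le]
      simp only [decide_eq_false_iff_not]
      exact tim_min hf ht p.1 i hi
  · intro z
    rw [hit]
    simp only [N, J]
    rcases hz : unbits (List Bool × ℕ) z with _ | p
    · rfl
    · simp only [Option.map_some, Option.getD_some, Option.elim_some]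
      rw [hrun p _ le_rfl, tim_spec hf ht]
      simp
  · intro z i hi
    rw [hit]
    simp only [N] at hi
    simp only [J]
    simp only [Polynomial.eval_add, Polynomial.eval_mul, Polynomial.eval_X, Polynomial.eval_ofNat]
    rcases hz : unbits (List Bool × ℕ) z with _ | p
    · simp
    · rw [hz] at hi
      simp only [Option.map_some, Option.getD_some] at hi
      simp only [Option.map_some]
      have hsz : sz p = z.length := by
        rw [← bits_length, bits_of_unbits hz]
      have key : ∀ j ≤ tim f p.1, sz (some ((stq f g)^[j] (List.replicate p.1.length false,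
          List.replicate p.1.length false, p.1, p.2))) ≤ 12 * z.length + 20 := by
        intro j hj
        rw [hrun p j hj]
        have e1 : (f^[j] (List.replicate p.1.length false)).length = p.1.length := by
          rw [iter_len hf]; simp
        have e2 : (g^[j] (List.replicate p.1.length false)).length = p.1.length := by
          rw [iter_len hg]; simp
        have h1 := sz_listBool_le (f^[j] (List.replicate p.1.length false))
        have h1' := sz_listBool_le (g^[j] (List.replicate p.1.length false))
        rw [e1] at h1
        rw [e2] at h1'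
        have h2 := sz_listBool_ge p.1
        obtain ⟨x, m⟩ := p
        simp only [sz_some, sz_pair] at hsz h1 h1' h2 ⊢
        omega
      by_cases h : i ≤ tim f p.1
      · exact key i h
      · have h1 : i = tim f p.1 + 1 := by omega
        subst h1
        have h2 := key (tim f p.1) le_rfl
        rw [hlast p]
        rw [hrun p _ le_rfl, tim_spec hf ht] at h2
        exact h2
  · intro z
    rw [hit, mem_lang_iff]
    simp only [N, J]
    rcases hz : unbits (List Bool × ℕ) z with _ | p
    · simp
    · simp only [Option.map_some, Option.getD_some, Option.elim_some]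
      rw [hlast p]
      simp [BitOf]

end

end Pool.Agent.V7H78.TR2
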