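import Pool.Agent.V7H78.TR2.Main

/-!
# P = PSPACE and roots of polynomial-time automorphisms of the binary tree

The vertices of the rooted binary tree are the bit strings. Let `Aut` be the group of automorphisms
of this tree (`TreeAut`: the bijections of the set of bit strings which preserve the length and the
relation of being an initial segment; equivalently the isometries of the ring of 2-adic integers),
and let `G` be the subgroup of the automorphisms which are computable in polynomial time together
with their inverses (`PAut`). An automorphism is level-transitive if it acts transitively on the
strings of each given length; in the big group `Aut` every two level-transitive elements are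
conjugate, and each of them has exactly one `m`-th root for each odd `m` and no root of even order.

The basic example is the odometer, which adds one to a number written in binary; its roots of odd
order are computable in polynomial time. We construct one level-transitive `a` in `G` all of whose
proper roots are complete for polynomial space, and deduce that P = PSPACE holds if and only if `a`
has a proper root in `G`, if and only if `a` is conjugate in `G` to the odometer, if and only if `a`
is conjugate in `G` to a proper power of itself, if and only if all level-transitive elements of `G`
are conjugate in `G`.
-/

namespace Pool.Agent.V7H78.TR2.TreeRoots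

open Pool.Agent.NPC Pool.Agent.H623R2.PS Pool.Agent.V7H78.TR2

/-- 1. Any two level-transitive elements `f`, `g` of `G` are conjugate by an automorphism `h` of the
tree whose bits can be computed in polynomial space.

2. A level-transitive element of `G` has for each odd `m` exactly one `m`-th root in the group of
all automorphisms of the tree, and its bits can be computed in polynomial space.

3. There is one level-transitive element `a` of `G` such that for every automorphism `g` of the tree
with `g ^ m = a` for some `m ≥ 2` the problem to compute a given bit of the value of `g` at a given
string is complete for polynomial space, and such that the following are equivalent: P = PSPACE; any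
two level-transitive elements of `G` are conjugate in `G`; every level-transitive element of `G` has
in `G` roots of all odd orders; `a` is conjugate in `G` to the odometer; `a` is conjugate in `G` to
`a ^ m` for some `m ≥ 2`; `a` has in `G` an `m`-th root for some `m ≥ 2`. -/
theorem result :
    (∀ f g, PAut f → LevelTransitive f → PAut g → LevelTransitive g →
      ∃ h, TreeAut h ∧ (∀ x, h (f x) = g (h x)) ∧ InPSPACE (lang (BitOf h))) ∧
    (∀ f, PAut f → LevelTransitive f → ∀ m : ℕ, Odd m →
      ∃ g, TreeAut g ∧ (∀ x, g^[m] x = f x) ∧ InPSPACE (lang (BitOf g)) ∧
        ∀ g', TreeAut g' → (∀ x, g'^[m] x = f x) → g' = g) ∧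
    ∃ a : List Bool → List Bool, PAut a ∧ LevelTransitive a ∧
      (∀ (m : ℕ) (g : List Bool → List Bool), 2 ≤ m → TreeAut g → (∀ x, g^[m] x = a x) →
        PSPACEComplete (lang (BitOf g))) ∧
      List.TFAE [
        ∀ L : Set (List Bool), InP L ↔ InPSPACE L,
        ∀ f g, PAut f → LevelTransitive f → PAut g → LevelTransitive g →
          ∃ h, PAut h ∧ ∀ x, h (f x) = g (h x),
        ∀ f, PAut f → LevelTransitive f → ∀ m : ℕ, Odd m → ∃ g, PAut g ∧ ∀ x, g^[m] x = f x,
        ∃ h, PAut h ∧ ∀ x, h (a x) = odometer (h x),
        ∃ (h : List Bool → List Bool) (m : ℕ), PAut h ∧ 2 ≤ m ∧ ∀ x, h (a x) = a^[m] (h x),
        ∃ (g : List Bool → List Bool) (m : ℕ), PAut g ∧ 2 ≤ m ∧ ∀ x, g^[m] x = a x] :=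
  thm

end Pool.Agent.V7H78.TR2.TreeRoots
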